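import Mathlib
import Pool.Agent.helper59.FI4.Defs

/-!
# Project fi4, version FI4+ (MP_baa4d7_al): the condition `|I| + N + 1 < p`. Definition and interface

`N` is the number of subgroups of index `p` of `D` needed to cover the non-regular elements of `D`.
-/

set_option autoImplicit false

namespace Pool.Agent.FI4B

open Pool.Agent.helper58.DC Pool.Agent.DI Pool.Agent.GR Pool.Agent.OB Pool.Agent.DR Pool.Agent.FI Pool.Agent.FI3 Pool.Agent.FI4

/-- The condition on the inertial quotient: `|I| + N + 1 < p`, the non-regular elements of `D` are covered by `N` subgroups of index `p` of `D`. -/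
def Hy2 {G : Type} [Group G] (p : ℕ) (M : Ideal (integralClosure ℤ ℂ)) (D : Subgroup G) (θ : G → ℂ) : Prop :=
  ∃ S : Finset (Subgroup G), (∀ H ∈ S, H ≤ D ∧ H.relIndex D = p) ∧
    (∀ u ∈ D, u ∉ RG M D θ → ∃ H ∈ S, u ∈ H) ∧ iI M D θ + S.card + 1 < p

/-! ## The outputs of the block BOUND for `Hy2` -/

/-- **BBD** (medium; from BST, BON, BCN, LOA, GRG, KZ4, IR4, BES4, BHT, CN4, GMX, LLN, TPR). THE BOUND. Proof: `N = |S|`, `S` from `Hy2`; `iI < p - 1`, `iI ≥ 1` so `p ≠ 2` (`p ≥ 3`). `S' = S.image (·.subgroupOf D)`, subgroups of index `p` of the type `D`, at most `N` of them; `R = {u : D | (u : G) ∈ RG M D θ}`. `m` from GMX for `|G|`. `Y` = the finite set of the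
`ψ ∈ Blk M χ ⊤` with `PR m ψ`; its number is `LL p M χ ⊤` (CN4). For `ψ ∈ Y`: `dd M (Cz ⊤ u) θ ψ u = f ψ u` is an integer for `u ∈ RG` (IR4, GRG), `F ψ u = ε u * f ψ u` satisfies the congruence of BST with `c`, `b`; `p ∤ c`: there is `u ∈ R` (BON-type count: `D ≠ ⋃ S'` as `N < p`), not in any `H ∈ S'`; if `p ∣ c` then `p ∣ f ψ u` and `dd` would be `InM`, contradicting
KZ4 (heights zero: BHT). BES4 for `a = 1` at `ψ`, `0` elsewhere gives `∑_R F² ≤ iI |D|`: BON gives `κ ψ`. BCN with BES4 for integral `a` supported on `Y` (`|∑ a ψ dd| = |∑ a ψ F ψ u|`, the sign `ε u` is common): `Y.card + 1 < p`. `1 ≤ l`: LLN (`χ ∈ Blk M χ ⊤`). -/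
def BBD_stmt : Prop :=
  ∀ (p : ℕ) (M : Ideal (integralClosure ℤ ℂ)), Setup p M → ∀ (G : Type) [Group G] [Finite G]
    (D : Subgroup G) (x : G) (θ χ : G → ℂ), Rt p M D x θ χ → Hy2 p M D θ →
    ∃ l : ℕ, LL p M χ ⊤ = l ∧ 1 ≤ l ∧ l + 1 < p


/-- **BHT** (short; PORT of HT4, `helper1/FI4/HT4.lean`). Proof: the proof of HT4, with `p ≠ 2` (`iI ≥ 1`, so `p > 2`) and `p ^ 2 * |RG| > iI * |D|`: `p * (|D| - |RG|) ≤ |S| |D|` (union bound), so `p ^ 2 |RG| ≥ p (p - |S|) |D| > iI |D|`. -/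
def BHT_stmt : Prop :=
  ∀ (p : ℕ) (M : Ideal (integralClosure ℤ ℂ)), Setup p M → ∀ (G : Type) [Group G] [Finite G]
    (D : Subgroup G) (x : G) (θ χ : G → ℂ), Rt p M D x θ χ → Hy2 p M D θ →
    ∀ ψ ∈ Blk M χ (⊤ : Subgroup G), ∀ a : ℕ, Nat.card D = p ^ a → Defect p ⊤ ψ a


end Pool.Agent.FI4B
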