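import Mathlib
import Pool.Agent.helper95.FI4.SpecB
import Pool.Agent.helper83.FI4B.Defs
import Pool.Agent.helper22.OB.SpecZ

/-!
# Project fi4, version FI4+ (MP_baa4d7_al): the condition `|I| + N + 1 < p`

`N` is the number of subgroups of index `p` of `D` needed to cover the non-regular elements of `D` (`Hy2`). OUTPUT: `BBD` (`l(B) ≤ p - 2`), `BHT` (heights) (both stated in `Defs.lean`), `BH2` (`2 |I| < p` implies `Hy2`; `|I| + Ω(|I|) + 1 < p` implies `Hy2` for abelian `I`).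
Page: /team-store/FI4_bound_helper83.md (refereed by helper1 and helper26; part (1) of the page is replaced by the shorter rows BIA, BIR, BRI below).

ROWS: one file `Pool/Agent/<seat>/FI4B/XXX.lean`, `import Pool.Agent.helper83.FI4B.Spec`, `namespace Pool.Agent.FI4B`, header as here, auxiliary lemmas prefixed `XXX_`, no sorry, no double quotes in the file,
no `convert`, no `congr!`. The rows named in the docstring are hypotheses; proved rows of FI, FI3, FI4, GR, DI, OB may be added (as hypotheses or imported).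
-/

set_option autoImplicit false

namespace Pool.Agent.FI4B

open Pool.Agent.helper58.DC Pool.Agent.DI Pool.Agent.GR Pool.Agent.OB Pool.Agent.DR Pool.Agent.FI Pool.Agent.FI3 Pool.Agent.FI4

/-! ## 1. Galois automorphisms in the inertia group -/

/-- **BIA** (medium; only Mathlib). The inertia group of a Galois extension `L` of `ℚ` acts as the full Galois group on the roots of unity of order `p ^ r`. Proof: `r = 0`: `τ = 1` (`ζ = 1`). `r = k + 1`: `F = ℚ⟮ζ⟯` (`IntermediateField ℚ L`), `IsCyclotomicExtension {p ^ (k + 1)} ℚ F`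
(`isCyclotomicExtension_singleton_iff_eq_adjoin`, see the proof of `inertiaDegIn_ramificationIdxIn_aux` in `Mathlib/NumberTheory/NumberField/Cyclotomic/Ideal.lean`). `J = P.inertia Gal(L/ℚ)`, `J' = P.inertia Gal(L/F)`, `𝒑 = span {(p : ℤ)}`, `P' = P.under (𝓞 F)`. By `Ideal.card_inertia_eq_ramificationIdxIn` (file
`Mathlib/NumberTheory/RamificationInertia/Galois.lean`) `|J| = 𝒑.ramificationIdxIn (𝓞 L)`, `|J'| = P'.ramificationIdxIn (𝓞 L)`, and by `Ideal.ramificationIdxIn_mul_ramificationIdxIn` (tower `ℤ, 𝓞 F, 𝓞 L`) and `ramificationIdxIn_eq_of_prime_pow` `|J| = p ^ k * (p - 1) * |J'|`. The restriction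
`J → Gal(F/ℚ)` (`AlgEquiv.restrictNormalHom F`) has as kernel the elements of `J` which fix `F`, in bijection with `J'` (`IntermediateField.fixingSubgroupEquiv`; both conditions are `∀ x : 𝓞 L, τ x - x ∈ P`), so its image has `p ^ k * (p - 1) = |Gal(F/ℚ)|` elements
(`IsCyclotomicExtension.Rat.finrank`, `IsGalois.card_aut_eq_finrank`): it is everything. The element of `Gal(F/ℚ)` with `ζ ↦ ζ ^ s` (`galEquivZMod` of `Mathlib/NumberTheory/NumberField/Cyclotomic/Galois.lean`, or `IsPrimitiveRoot.autToPow` surjective, or `VGA_cyc` of `helper72/SJ/VGA.lean`) is the restriction of some `τ ∈ J`. -/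
def BIA_stmt : Prop :=
  ∀ (p r : ℕ), p.Prime → ∀ (L : Type) [Field L] [NumberField L] [IsGalois ℚ L]
    (P : Ideal (NumberField.RingOfIntegers L)), P.IsPrime → (p : NumberField.RingOfIntegers L) ∈ P →
    ∀ ζ : L, IsPrimitiveRoot ζ (p ^ r) → ∀ s : ℕ, s.Coprime p →
    ∃ τ : L ≃ₐ[ℚ] L, τ ζ = ζ ^ s ∧ ∀ x y : NumberField.RingOfIntegers L, (y : L) = τ (x : L) - (x : L) → y ∈ P

/-- **BIR** (medium; from BIA). Proof: `n = p ^ r * m`, `p ∤ m` (`Nat.exists_eq_pow_mul_and_not_dvd`). For `t ∈ T` choose `a t`, `b t` in `integralClosure ℤ ℂ`, `b t ∉ M`, `t * b t = a t`. Let `z` be a primitive `n`-th root of unity, `L = IntermediateField.normalClosure ℚ (IntermediateField.adjoin ℚ S) ℂ`,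
`S` the finite set of the `a t`, `b t`, `z` (all algebraic): a number field, Galois over `ℚ`. `P = ` the preimage of `M` in `𝓞 L` (an element of `𝓞 L` is in `integralClosure ℤ ℂ`). `τ` from BIA for `ζ = z ^ m`, `σ` extends `τ` to `ℂ` (`VGA_ext` of `helper72/SJ/VGA.lean`: copy it with the prefix `BIR_`, it uses
only Mathlib). For `x ∈ 𝓞 L`: `σ x - x ∈ M` (*). Let `η ^ m = 1`: `σ η = η`: otherwise `w = σ η * η⁻¹ ≠ 1`, `w ^ m = 1`, `w - 1 = (σ η - η) * η⁻¹ ∈ M` by (*) (all `n`-th roots of unity are powers of `z`, so in `L`), but `1 - w` divides `m` (`∏_{j=1}^{m'-1} (1 - w ^ j) = m'` for `m' = orderOf w ∣ m`; or: `m = ∑_{j<m} 1`,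
`0 = ∑_{j<m} w ^ j = m + ∑ (w ^ j - 1)`, so `m ∈ M`) and `m ∉ M` as `p ∤ m` (`InM.natCast`, Ari). Every `ζ` with `ζ ^ n = 1` is `ζ₁ * ζ₂`, `ζ₁ ^ (p ^ r) = 1`, `ζ₂ ^ m = 1` (Bezout), `ζ₁` is a power of `z ^ m`: `σ ζ₁ = ζ₁ ^ s`, `σ ζ₂ = ζ₂ = ζ₂ ^ s` (`s ≡ 1` modulo `m`). `t ∈ T`: `σ t * σ (b t) = σ (a t)`,
`σ (b t) ∉ M` by (*); `(σ t - t) * (b t * σ (b t)) = (σ (a t) - a t) * b t - a t * (σ (b t) - b t) ∈ M`. -/
def BIR_stmt : Prop :=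
  ∀ (p : ℕ) (M : Ideal (integralClosure ℤ ℂ)), Setup p M → ∀ (n s : ℕ), 0 < n → s.Coprime n →
    (∀ d : ℕ, d ∣ n → ¬ p ∣ d → s ≡ 1 [MOD d]) → ∀ T : Set ℂ, T.Finite → (∀ t ∈ T, IntAt M t) →
    ∃ σ : ℂ ≃+* ℂ, (∀ ζ : ℂ, ζ ^ n = 1 → σ ζ = ζ ^ s) ∧ ∀ t ∈ T, IntAt M (σ t) ∧ InM M (σ t - t)

/-- **BRI** (short to medium; from BIR, RR1, GLI, GLP, QEU, QCG). RATIONALITY of `i`, for ALL `u ∈ D` (regular or not). Proof: `σ` from BIR for `n = |G|`, `T = Set.range i`; `i' x = σ (i x)`. (1) `QLA_form` (`helper40/FIB/QLB`): `ev ψ i u` is `θ 1` times an integer combination of values `lv l u`, `lv l u` is a root of unity of order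
dividing `|D|`, which divides `|G|`, and `θ 1` is a natural number: `σ (ev ψ i u) = ev ψ i (u ^ s)`. (2) `σ (ev ψ i u) = ∑ᶠ x, σ (i x) * σ (ψ (u * x)) = ev (fun g => ψ (g ^ s)) i' u` (GLP). (3) `φ = fun g => ψ (g ^ s) ∈ IrrOn (cz P)` (ZT4 of OB, or GLI and GLP). RR1 for `H = cz P`, `y = u`, `v = 1`: `Idm M H i'` (`cv i' i' = i'`: apply `σ` to
`cv i i = i`; `int`: BIR), `i`, `i'` are invariant under `u` (`u ∈ D ≤ TT M D θ ⊓ cz P`, `QI.inv`, `FRA4`/`cz_le_TT`), `i x - i' x` is `InM` (BIR): `ev φ i u = ev φ i' u`. -/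
def BRI_stmt : Prop :=
  ∀ (p : ℕ) (M : Ideal (integralClosure ℤ ℂ)), Setup p M → ∀ (G : Type) [Group G] [Finite G]
    (D : Subgroup G) (x : G) (θ χ : G → ℂ), Rt p M D x θ χ → ∀ P ≤ D, ∀ i : G → ℂ, QI M D (cz P) θ i →
    ∀ s : ℕ, s.Coprime (Nat.card G) → (∀ d : ℕ, d ∣ Nat.card G → ¬ p ∣ d → s ≡ 1 [MOD d]) →
    ∀ ψ ∈ IrrOn (cz P), ∀ u ∈ D, ev ψ i (u ^ s) = ev (fun g => ψ (g ^ s)) i u

/-! ## 2. Rational combinations of characters modulo `p ^ 2` -/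

/-- **BOR** (medium; pure; from LCO (1)). Proof: `f u = ∑ l, m l * lv l u` (`finsum_eq_sum_of_fintype`), `|D| m l = ∑ u, f u * lv l u⁻¹`; so `m (l ^ s) = m l` for `p ∤ s` (substitute `u ↦ u ^ s`, a permutation of `D`; `lv (l ^ s) u = lv l (u ^ s)`). Group the sum by `V = l.ker`: `f u = ∑_V ∑_{l : ker l = V} m l * lv l u`.
Fix `V` for which such an `l₀` exists, `p ^ j = orderOf l₀ = V.index` (`D ⧸ V` is cyclic, isomorphic to the image of `l₀`, the group of the `p ^ j`-th roots of unity). Every `l` with `ker l = V` is `l₀ ^ s` for a unique `s < p ^ j` with `p ∤ s` (or `j = 0`) (both `l`, `l₀` induce injections of the cyclic group `D ⧸ V`, with generator `g V`, into `ℂˣ`: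
`l g` and `l₀ g` have order `p ^ j`, so `l g = (l₀ g) ^ s`). So `m l = m l₀` and the inner sum is `m l₀ * S j (l₀ u)`, `S j w = ∑_{s < p ^ j, p ∤ s} w ^ s` for `w ^ p ^ j = 1`: `S 0 = 1` (only `l = 1`); `S 1 w = p - 1` if `w = 1`, `-1` otherwise, i.e. `-1 + p [u ∈ V]`; for `j ≥ 2` `S j w = p ^ (j-1) (p-1)` if `w = 1`,
`-p ^ (j-1)` if `w ≠ 1`, `w ^ p = 1`, `0` otherwise (sum over all `s` minus sum over the multiples of `p`, as in the docstring of LRU, `helper40/FI/SpecLA`), so modulo `p ^ 2`: `j = 2`: `-p [w ^ p = 1] = -p [u ∈ V₁]`, `V₁ = ker (l₀ ^ p)` of index `p`; `j ≥ 3`: `0`. Add up. (`f u` is an integer as all `S` are.) -/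
def BOR_stmt : Prop :=
  ∀ (p : ℕ), p.Prime → ∀ (D : Type) [CommGroup D] [Fintype D], IsPGroup p D → ∀ f : D → ℂ, LGC f →
    (∀ s : ℕ, ¬ p ∣ s → ∀ u, f (u ^ s) = f u) →
    ∃ (c : ℤ) (b : Subgroup D → ℤ), ∀ u, ∃ z : ℤ, f u = z ∧
      (p : ℤ) ^ 2 ∣ z - (c + p * ∑ᶠ V ∈ {V : Subgroup D | V.index = p ∧ u ∈ V}, b V)

/-- **BPS** (medium; pure; from LCG, LCO, BOR; the first half is PSG of `helper95/FI4/SpecB`: copy its proof). Proof. As in PSG: `κ u = ∑ χ, c χ * conj (β χ u)` is `LGC`, `κ u = |I| n(u)²` on `R`, `|D| c χ = ∑ a, β χ a`; `ε`, `δ` with `p ∣ ε u * n u - δ` on `R`, `p ∤ δ` (`R` empty: nothing to prove).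
(1) `κ (u ^ s) = κ u` for `p ∤ s`, ALL `u`: `β χ (u ^ s) = β (π χ) u` and `c (π χ) = c χ` (`∑ a, β χ (a ^ s) = ∑ a, β χ a`), reindex by `π`. (2) Let `χ` be with `β χ (u ^ s) = β χ u`. `h = β χ * κ ^ ((p - 1) / 2)` is `LGC` (LCG) and invariant: BOR gives `c₀`, `b₀` with `h u = z u`, `p ^ 2 ∣ z u - (c₀ + p ∑ b₀)`.
(3) `u ∈ R`, `d χ u = f`: `h u = n u * f * (|I| n(u)²) ^ ((p-1)/2) = |I| ^ ((p-1)/2) * (ε u * n u) ^ p * (ε u * f)` (`p` odd, `ε u ^ 2 = 1`), and `(ε u * n u) ^ p ≡ δ ^ p` modulo `p ^ 2` (`Int`: `a ≡ b` modulo `p` implies `a ^ p ≡ b ^ p` modulo `p ^ 2`, `Int.ModEq`/`dvd_sub_pow_of_dvd_sub`). So with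
`w = |I| ^ ((p-1)/2) * δ ^ p`, prime to `p`: `w * (ε u * f) ≡ c₀ + p ∑ b₀` modulo `p ^ 2`. Take `w'` with `w * w' ≡ 1` modulo `p ^ 2`, `c = w' c₀`, `b = w' b₀`. -/
def BPS_stmt : Prop :=
  ∀ (p : ℕ) (M : Ideal (integralClosure ℤ ℂ)), Setup p M → p ≠ 2 → ∀ (D : Type) [CommGroup D] [Fintype D]
    (X : Type) [Fintype X] (R : Set D) (I : Subgroup (MulAut D)) (β d : X → D → ℂ) (n : D → ℤ),
    IsPGroup p D → ¬ p ∣ Nat.card I → (∀ t ∈ I, ∀ u ∈ R, t u = u → t = 1) → (∀ χ, LGC (β χ)) →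
    (∀ χ, ∀ t ∈ I, ∀ u, β χ (t u) = β χ u) → (∀ χ, ∀ u ∈ R, β χ u = (n u : ℂ) * d χ u) →
    (∀ u ∈ R, ¬ (p : ℤ) ∣ n u) →
    (∀ u ∈ R, ∀ a, (∀ t ∈ I, t u ≠ a) → ∑ χ, β χ a * (starRingEnd ℂ) (β χ u) = 0) →
    (∀ u ∈ R, ∑ χ, d χ u * (starRingEnd ℂ) (d χ u) = (Nat.card D : ℂ)) →
    (∀ s : ℕ, ¬ p ∣ s → ∃ π : Equiv.Perm X, ∀ χ u, β χ (u ^ s) = β (π χ) u) →
    ∃ ε : D → ℤ, (∀ u, ε u = 1 ∨ ε u = -1) ∧
      ∀ χ, (∀ s : ℕ, ¬ p ∣ s → ∀ u, β χ (u ^ s) = β χ u) →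
        ∃ (c : ℤ) (b : Subgroup D → ℤ), ∀ u ∈ R, ∀ f : ℤ, d χ u = f →
          (p : ℤ) ^ 2 ∣ ε u * f - (c + p * ∑ᶠ V ∈ {V : Subgroup D | V.index = p ∧ u ∈ V}, b V)

/-- **BST** (medium; from BPS, BRI, QID, NU4, OR4, DOR4, GRG, RGF, QEU, QCG, LCG, ZT4; PORT of SG4 of `helper95/FI4/SpecB`). Proof: `P = ⊥`, `cz ⊥ = ⊤`. `i` from QID, `n` from NU4, `I : Subgroup (MulAut D)` from QI0 for `TT M D θ ⊓ cz ⊥` as in SG4. `X = IrrOn (cz ⊥)` (ALL irreducible characters, finite), `β ψ u = ev ψ i u / θ 1`, `d ψ u = dd M (Cz ⊤ u) θ ψ u`,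
`R = {u : D | (u : G) ∈ RG M D θ}`. The hypotheses of BPS as in SG4 (QLA_h1 holds for all `ψ ∈ IrrOn`; OR4 is a sum over `IrrOn`; `∑ |d|² = |D|`: DOR4 (2), and `d ψ u = 0` for `ψ ∉ Bl`: DOR4 (1)). `π`: let `p ∤ s`, `|G| = p ^ a * k`, `p ∤ k`; `s' ≡ s` modulo `p ^ a`, `s' ≡ 1` modulo `k` (`Nat.chineseRemainder`), `s'` is prime to `|G|`, `u ^ s = u ^ s'` for `u ∈ D`;
`π ψ = fun g => ψ (g ^ s')` is a permutation of `IrrOn (cz ⊥)` (ZT4; the inverse is `fun g => ψ (g ^ s'')`, `s' s'' ≡ 1` modulo `|G|`), and BRI gives `β ψ (u ^ s) = β (π ψ) u`. For `PR m ψ`: `ψ (g ^ m ^ j) = ψ g` (induction), `Gm.gen`: for `p ∤ s` choose `j` with `m ^ j ≡ s` modulo every `p ^ k ∣ |G|`; `m ^ j` is prime to `|G|`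
and `≡ 1` modulo every `d ∣ |G|` prime to `p` (`Gm.reg`), `u ^ s = u ^ (m ^ j)`, BRI: `ev ψ i (u ^ s) = ev (fun g => ψ (g ^ m ^ j)) i u = ev ψ i u`. `ε` on `G`: `ε u` of BPS on `D`, `1` outside. -/
def BST_stmt : Prop :=
  ∀ (p : ℕ) (M : Ideal (integralClosure ℤ ℂ)), Setup p M → p ≠ 2 → ∀ (G : Type) [Group G] [Finite G]
    (D : Subgroup G) (x : G) (θ χ : G → ℂ), LoA p M D x θ χ →
    ∃ ε : G → ℤ, (∀ u, ε u = 1 ∨ ε u = -1) ∧ ∀ m : ℕ, Gm p (Nat.card G) m →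
      ∀ ψ ∈ IrrOn (⊤ : Subgroup G), PR m ψ →
        ∃ (c : ℤ) (b : Subgroup D → ℤ), ∀ u : D, (u : G) ∈ RG M D θ → ∀ f : ℤ,
          dd M (Cz (⊤ : Subgroup G) (u : G)) θ ψ u = f →
          (p : ℤ) ^ 2 ∣ ε u * f - (c + p * ∑ᶠ V ∈ {V : Subgroup D | V.index = p ∧ u ∈ V}, b V)

/-! ## 3. The plane lemma and the two counting arguments (pure) -/

/-- **BSM** (short; only Mathlib). Proof: the product is the value at `t` of the polynomial `∏ j, (C (a j) + C (b j) * X)` of degree at most `card J ≤ p - 2`; `∑ t, t ^ i = 0` for `i < p - 1` (`FiniteField.sum_pow_lt_card_sub_one`), expand by `Polynomial.eval_eq_sum_range'`. -/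
def BSM_stmt : Prop :=
  ∀ (p : ℕ) [Fact p.Prime] (J : Type) [Fintype J] (a b : J → ZMod p), Fintype.card J + 2 ≤ p →
    ∑ t : ZMod p, ∏ j, (a j + b j * t) = 0

/-- **BPL** (medium; from BSM). THE PLANE LEMMA. Proof: let `T` be the set on the right, `(0,0) ∈ T`. Suppose `card N + |T| + 1 ≤ p`. For `w ∈ T`, `w ≠ 0` choose an affine function `r_w` with `r_w w = 0`, `r_w 0 = 1` (`1 - s / w.1` if `w.1 ≠ 0`, `1 - t / w.2` otherwise). `g = ∏ j, (α' j + β' j s + γ' j t) * ∏_{w ∈ T, w ≠ 0} r_w` is a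
product of `card N + |T| - 1 ≤ p - 2` affine functions of `(s, t)`. (1) `∑_{s,t} g = 0` and, for every `(α, β, γ)`, `∑_{s,t : α + β s + γ t = 0} g = 0`: for `β = γ = 0` it is `0` or the full sum, and the full sum is `0` by BSM for fixed `s`; for `γ ≠ 0` the line is `t = -(α + β s) / γ`, for `γ = 0`, `β ≠ 0` it is `s = -α / β`: `g` becomes a product of at
most `p - 2` affine functions of one variable (BSM). So `∑_{s,t} k g = c ∑ g + ∑ j, b j ∑_{line j} g = 0`. (2) `k g` vanishes outside `(0,0)`: off `T` some `α' + β' s + γ' t = 0` or `k = 0`; on `T \ 0` `r_w = 0`. So `∑ k g = k 0 0 * ∏ j, α' j ≠ 0`: contradiction. -/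
def BPL_stmt : Prop :=
  ∀ (p : ℕ) [Fact p.Prime] (J N : Type) [Fintype J] [Fintype N] (c : ZMod p) (b α β γ : J → ZMod p)
    (α' β' γ' : N → ZMod p) (k : ZMod p → ZMod p → ZMod p),
    (∀ s t, k s t = c + ∑ j, if α j + β j * s + γ j * t = 0 then b j else 0) → (∀ j, α' j ≠ 0) → k 0 0 ≠ 0 →
    p ≤ Fintype.card N +
      {q : ZMod p × ZMod p | (∀ j, α' j + β' j * q.1 + γ' j * q.2 ≠ 0) ∧ k q.1 q.2 ≠ 0}.ncard

/-- **BAV** (medium; from BPL). AVERAGE. Proof: for every `V` of index `p` there is a homomorphism `v : D →* Multiplicative (ZMod p)` with kernel `V` (`D ⧸ V` has order `p`: `zmodCyclicMulEquiv`/`mulEquivOfPrimeCardEq`). Let `T = {u | (∀ H ∈ S, u ∉ H) ∧ k u ≠ 0}`. For `(x, y) ∈ D × D` let `φ (s, t) = u₀ * x ^ s.val * y ^ t.val`, `s`, `t : ZMod p`.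
`φ (s, t) ∈ V` iff `v u₀ + s v x + t v y = 0` in `ZMod p`. So `k (φ (s, t))` has the form of BPL (`J` = the subgroups of index `p`), and `φ (s, t) ∉ H` iff `v_H u₀ + s v_H x + t v_H y ≠ 0`, `v_H u₀ ≠ 0` for `H ∈ S`. BPL: `p ≤ |S| + #{(s, t) | φ (s, t) ∈ T}`, so `p ≤ |S| + 1 + #{(s, t) ≠ (0,0) | φ (s, t) ∈ T}`. Sum over all `(x, y)`: for fixed
`(s, t) ≠ (0, 0)` every element of `D` is `φ (s, t)` for exactly `|D|` pairs (`x ↦ x ^ s.val` is bijective for `s ≠ 0`: `p ∤ s.val`, `|D|` a power of `p`: `powCoprime`). So `p |D|² ≤ (|S| + 1) |D|² + (p ^ 2 - 1) |D| |T|`; cancel `|D|`. -/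
def BAV_stmt : Prop :=
  ∀ (p : ℕ), p.Prime → ∀ (D : Type) [CommGroup D] [Finite D], IsPGroup p D → ∀ (c : ZMod p)
    (b : Subgroup D → ZMod p) (S : Finset (Subgroup D)), (∀ H ∈ S, H.index = p) → ∀ k : D → ZMod p,
    (∀ u, k u = c + ∑ᶠ V ∈ {V : Subgroup D | V.index = p ∧ u ∈ V}, b V) →
    ∀ u₀ : D, (∀ H ∈ S, u₀ ∉ H) → k u₀ ≠ 0 →
    p * Nat.card D ≤ (S.card + 1) * Nat.card D + (p ^ 2 - 1) * {u : D | (∀ H ∈ S, u ∉ H) ∧ k u ≠ 0}.ncard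

/-- **BON** (medium; from BAV). ONE CHARACTER. Proof: let `D' = {u | ∀ H ∈ S, u ∉ H}` (`⊆ R`), `N = |S|`, `q = p - N ≥ n + 2`; `p |D'| ≥ q |D|` (union bound, `|H| = |D| / p`). `p = 2`: `n = N = 0`, `R = D`, all `F u = 0`, contradiction to `p ∤ c`. Let `p` be odd, `κ` the residue of `c` modulo `p` with `2 |κ| < p` (`Int.bmod`), `κ ≠ 0`, `c = κ + p c'`.
`k u = c' + ∑ b V` modulo `p`: `F u ≡ κ + p k u` modulo `p ^ 2` on `R`. If `k u = 0` for all `u ∈ D'`, done. Otherwise BAV: `T = {u ∈ D' | k u ≠ 0}` has `(p ^ 2 - 1) |T| ≥ (q - 1) |D|`. For `u ∈ T` `F u ≡ κ` modulo `p`, `F u ≠ κ`, so `|F u| ≥ p - |κ|`; for `u ∈ D' \ T` `F u ≡ κ` modulo `p ^ 2`, so `|F u| ≥ |κ|`. Hence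
`n |D| ≥ ∑_{D'} F² ≥ κ² |D'| + p (p - 2|κ|) |T|`. Multiply by `p (p ^ 2 - 1)`: `n p (p²-1) ≥ κ² q (p²-1) + p² (p - 2|κ|) (q - 1)`. The right side is increasing in `|κ| ≥ 1` (the difference for `|κ| + 1` and `|κ|` is `(2|κ|+1) q (p²-1) - 2 p² (q-1) ≥ 3 q (p²-1) - 2 p² (q-1) = p² (q + 2) - 3 q > 0`), so it is at least
`q (p²-1) + p² (p-2) (q-1)`; with `n ≤ q - 2`: `(q-2) p (p²-1) - q (p²-1) - p² (p-2) (q-1) = -(p³ - (q-2) p (p-1) - q) < 0` as `q ≤ p`: contradiction. -/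
def BON_stmt : Prop :=
  ∀ (p : ℕ), p.Prime → ∀ (D : Type) [CommGroup D] [Finite D], IsPGroup p D → ∀ (R : Set D)
    (S : Finset (Subgroup D)), (∀ H ∈ S, H.index = p) → (∀ u, u ∉ R → ∃ H ∈ S, u ∈ H) → ∀ n : ℕ,
    n + S.card + 1 < p → ∀ (F : D → ℤ) (c : ℤ) (b : Subgroup D → ℤ), ¬ (p : ℤ) ∣ c →
    (∀ u ∈ R, (p : ℤ) ^ 2 ∣ F u - (c + p * ∑ᶠ V ∈ {V : Subgroup D | V.index = p ∧ u ∈ V}, b V)) →
    (∑ᶠ u ∈ R, F u ^ 2 ≤ (n : ℤ) * Nat.card D) →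
    ∃ κ : ℤ, κ ≠ 0 ∧ 2 * |κ| < p ∧ ∀ u, (∀ H ∈ S, u ∉ H) → (p : ℤ) ^ 2 ∣ F u - κ

/-- **BCN** (short to medium; only Mathlib). THE COUNT. Proof: suppose `Y.card ≥ p - 1`, let `Y' ⊆ Y` with `p - 1` elements, `a x = sign (κ x)` on `Y'`, `0` elsewhere, `s = ∑_{Y'} |κ x|`: `p - 1 ≤ s ≤ (p - 1) ^ 2 / 2` (`2 |κ| ≤ p - 1`), so `p ^ 2 - s ≥ p - 1`. For `u ∈ D' = {u | ∀ H ∈ S, u ∉ H} ⊆ R` `∑ a x F x u ≡ s` modulo `p ^ 2`, so its
absolute value is at least `p - 1`. `p |D'| ≥ (p - N) |D|`, `N = |S|`. So `(p-1)² (p - N) |D| ≤ p (p-1)² |D'| ≤ p n |D| (p - 1)`, i.e. `(p - 1) (p - N) ≤ p n ≤ p (p - N - 2)`: contradiction, as `(p - 1) (p - N) = p (p - N - 2) + 2 p - (p - N)`. -/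
def BCN_stmt : Prop :=
  ∀ (p : ℕ), p.Prime → ∀ (D : Type) [CommGroup D] [Finite D], IsPGroup p D → ∀ (R : Set D)
    (S : Finset (Subgroup D)), (∀ H ∈ S, H.index = p) → (∀ u, u ∉ R → ∃ H ∈ S, u ∈ H) → ∀ n : ℕ,
    n + S.card + 1 < p → ∀ (X : Type) (Y : Finset X) (F : X → D → ℤ) (κ : X → ℤ),
    (∀ x ∈ Y, κ x ≠ 0 ∧ 2 * |κ x| < p ∧ ∀ u, (∀ H ∈ S, u ∉ H) → (p : ℤ) ^ 2 ∣ F x u - κ x) →
    (∀ a : X → ℤ, ∑ᶠ u ∈ R, (∑ x ∈ Y, a x * F x u) ^ 2 ≤ (n : ℤ) * Nat.card D * ∑ x ∈ Y, a x ^ 2) →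
    Y.card + 1 < p

/-! ## 4. The condition `Hy2` -/

/-- **BCV** (short to medium; only Mathlib; compare XRG, `helper40/FI4/XRG.lean`). For every coset of `cz D` in `TT M D θ` different from `cz D` one subgroup of index `p`. Proof: `C = cz D ≤ T = TT M D θ`. For `t ∈ T`, `t ∉ C` `F t = {u ∈ D | t u = u t}` is a proper subgroup of the `p`-group `D` which depends only on `t C`, so it is contained in a subgroup of `D`
of index `p` (`Sylow.exists_subgroup_card_pow_prime_le` in the type `D`, map it to `G`). `u ∈ D`, `u ∉ RG` commutes with some such `t`. There are `iI - 1` cosets `≠ C` (`T ⧸ C.subgroupOf T`). -/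
def BCV_stmt : Prop :=
  ∀ (p : ℕ) (M : Ideal (integralClosure ℤ ℂ)), p.Prime → ∀ (G : Type) [Group G] [Finite G] (D : Subgroup G) (θ : G → ℂ),
    θ ∈ IrrOn (cz D) → IsPGroup p D → ∃ S : Finset (Subgroup G), (∀ H ∈ S, H ≤ D ∧ H.relIndex D = p) ∧
      (∀ u ∈ D, u ∉ RG M D θ → ∃ H ∈ S, u ∈ H) ∧ S.card + 1 ≤ iI M D θ

/-- **BAP** (medium; only Mathlib). ABELIAN ACTION: `Ω |T : C|` subgroups are enough (`Ω n = n.primeFactorsList.length`). Proof: strong induction on `|T|`. If every `t ∈ T` is in `C`: `S = ∅`. Otherwise let `K` be maximal (of maximal order) among the subgroups `K ≤ D` with `t K t⁻¹ = K` for `t ∈ T` such that `t d t⁻¹ d⁻¹ ∉ K` for some `t ∈ T`, `d ∈ D` (`K = ⊥` is one, by the hypothesis on `C`).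
`T₁ = {t ∈ T | ∀ d ∈ D, t d t⁻¹ d⁻¹ ∈ K}` is a proper subgroup of `T` containing `C`. CLAIM: `t ∈ T`, `t ∉ T₁`, `u ∈ D`, `t u = u t` imply `u ∈ K`. Let `K' = {d ∈ D | t d t⁻¹ d⁻¹ ∈ K}`, a subgroup (`D` is abelian), `K ≤ K'`, `u ∈ K'`, invariant under `T` (for `s ∈ T` `s⁻¹ t s = t c` with `c ∈ C`, which commutes with `D`). If `K' ≠ K` then by maximality
`t d t⁻¹ d⁻¹ ∈ K'` for all `d ∈ D`; write `t d t⁻¹ = d e`, `e ∈ K'`, `t e t⁻¹ ∈ e K`, so `t ^ j d t ^ (-j) ∈ d e ^ j K`; for `j = |T : C|` `t ^ j ∈ C` (`T / C` is a group of order `j`; `pow_relIndex_mem`-type fact), so `e ^ j ∈ K`, `p ∤ j`, `e ∈ K` (`e ∈ D` has `p`-power order): so `t ∈ T₁`, a contradiction. So `K' = K`. END. `K ≠ D`, so `K ≤ H₀`, `H₀` of index `p` in `D`.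
`S₁` for `T₁` by induction (`|S₁| ≤ Ω |T₁ : C|`), `S = S₁ ∪ {H₀}`: if `u ∉ H₀` then all `t ∈ T` commuting with `u` are in `T₁`. `|T : C| = |T : T₁| |T₁ : C|`, `|T : T₁| > 1`, `Ω (a b) = Ω a + Ω b` (`Nat.perm_primeFactorsList_mul`, or `ArithmeticFunction.cardFactors_mul`). -/
def BAP_stmt : Prop :=
  ∀ (p : ℕ), p.Prime → ∀ (G : Type) [Group G] [Finite G] (C D T : Subgroup G), IsPGroup p D →
    (∀ a ∈ D, ∀ b ∈ D, a * b = b * a) → C ≤ T → (∀ t ∈ T, ∀ d ∈ D, t * d * t⁻¹ ∈ D) →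
    (∀ t ∈ T, (∀ d ∈ D, t * d = d * t) ↔ t ∈ C) → ¬ p ∣ C.relIndex T →
    (∀ a ∈ T, ∀ b ∈ T, a * b * a⁻¹ * b⁻¹ ∈ C) →
    ∃ S : Finset (Subgroup G), (∀ H ∈ S, H ≤ D ∧ H.relIndex D = p) ∧
      (∀ u ∈ D, (∃ t ∈ T, t ∉ C ∧ t * u = u * t) → ∃ H ∈ S, u ∈ H) ∧ S.card ≤ (C.relIndex T).primeFactorsList.length

/-- **BH2** (short; from BCV, BAP, LOA). Proof: (1) BCV: `iI + |S| + 1 ≤ 2 iI < p`. (2) BAP for `C = cz D`, `T = TT M D θ` (`LoA.bet`, `cz_le_TT`, `Rt.com`; `t ∈ T` normalises `D`; `t ∈ cz D` iff `t` commutes with `D`): `|S| ≤ Ω iI`; `u ∈ D`, `u ∉ RG` commutes with some `t ∈ T`, `t ∉ cz D`. -/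
def BH2_stmt : Prop :=
  ∀ (p : ℕ) (M : Ideal (integralClosure ℤ ℂ)), Setup p M → ∀ (G : Type) [Group G] [Finite G]
    (D : Subgroup G) (x : G) (θ χ : G → ℂ), Rt p M D x θ χ →
    (2 * iI M D θ < p → Hy2 p M D θ) ∧
    ((∀ a ∈ TT M D θ, ∀ b ∈ TT M D θ, a * b * a⁻¹ * b⁻¹ ∈ cz D) →
      iI M D θ + (iI M D θ).primeFactorsList.length + 1 < p → Hy2 p M D θ)

end Pool.Agent.FI4B
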