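import Mathlib
import Pool.Agent.helper83.FI4B.Defs
import Pool.Agent.helper59.FI4.SpecI

/-!
# Project fi4, version FI4+ (MP_baa4d7_al): heredity of the condition `Hy2` (for block IND)

ROWS: one file `Pool/Agent/<seat>/FI4B/XXX.lean`, `import Pool.Agent.helper83.FI4B.SpecI2`, `namespace Pool.Agent.FI4B`, header as here, auxiliary lemmas prefixed `XXX_`, no sorry, no double quotes in the file, no `convert`, no `congr!`.
-/

set_option autoImplicit false

namespace Pool.Agent.FI4B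

open Pool.Agent.helper58.DC Pool.Agent.DI Pool.Agent.GR Pool.Agent.OB Pool.Agent.DR Pool.Agent.FI Pool.Agent.FI3 Pool.Agent.FI4 Pool.Agent.FI4I

/-- **BHN** (short to medium; from TRT, TR3; PORT of HYN, `helper51/FI4/HYN.lean`). The condition goes to subgroups. Proof: `iI` as in HYN; `S' = S.image (·.subgroupOf N)`: `H ≤ D ≤ N`, relIndex as `H`, `D` (TR3 or `Subgroup.relIndex_subgroupOf`); `u ∈ D.subgroupOf N` not in `RG M (D.subgroupOf N) (rN N θ)` is not in `RG M D θ` (HYN (2)). -/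
def BHN_stmt : Prop :=
  ∀ (p : ℕ) (M : Ideal (integralClosure ℤ ℂ)), Setup p M → ∀ (G : Type) [Group G] [Finite G]
    (D N : Subgroup G), D ≤ N → cz D ≤ N → ∀ θ ∈ IrrOn (cz D), Hy2 p M D θ →
    Hy2 p M (D.subgroupOf N) (rN N θ)


/-- **BCJ** (medium; from TTC, CON, FEQ, SYL; PORT of CJR, `helper20/FI4/CJR.lean`). Proof as there; `Hy2` for `cjS h D`, `cjF h θ`: `S' = S.image (cjS h ·)`, `u ∈ cjS h D` not in `RG` of `(cjS h D, cjF h θ)` iff `h⁻¹ u h ∉ RG M D θ` (TTC (2): `TT M (cjS h D) (cjF h θ) = cjS h (TT M D θ)`, `cz (cjS h D) = cjS h (cz D)`); `RG` depends only on `TT` (TTC (1)). -/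
def BCJ_stmt : Prop :=
  ∀ (p : ℕ) (M : Ideal (integralClosure ℤ ℂ)), Setup p M → ∀ (G : Type) [Group G] [Finite G]
    (D : Subgroup G) (x : G) (θ χ : G → ℂ), Rt p M D x θ χ → ∀ g : G, ∀ θ₁ ∈ IrrOn (cz (cjS g D)),
    Induces M θ₁ χ → Rt p M (cjS g D) (g * x * g⁻¹) θ₁ χ ∧ iI M (cjS g D) θ₁ = iI M D θ ∧
      (Hy2 p M D θ → Hy2 p M (cjS g D) θ₁)


end Pool.Agent.FI4B
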