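import Mathlib
import Pool.Agent.helper83.FI4B.SpecI2

/-!
# Project fi4, version FI4+ (MP_baa4d7_al): the statements of block IND and FINAL for the condition `Hy2`

Copies of the statements of `helper59/FI4/{Defs,SpecI}` with `Hy2` instead of `Hyp`.
-/

set_option autoImplicit false

namespace Pool.Agent.FI4B

open Pool.Agent.helper58.DC Pool.Agent.DI Pool.Agent.GR Pool.Agent.OB Pool.Agent.DR Pool.Agent.FI Pool.Agent.FI3 Pool.Agent.FI4 Pool.Agent.FI4I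

/-- **IHN2**: the induction hypothesis. -/
def IHN2_stmt : Prop :=
  ∀ (p : ℕ) (M : Ideal (integralClosure ℤ ℂ)), Setup p M → ∀ (G : Type) [Group G] [Finite G]
    (D : Subgroup G) (x : G) (θ χ : G → ℂ), Rt p M D x θ χ → Hy2 p M D θ → ∀ Q N : Subgroup G,
    Mid p Q N →
    (∀ (D' : Subgroup N) (x' : N) (θ' χ' : N → ℂ), Rt p M D' x' θ' χ' → Hy2 p M D' θ' →
      LL p M χ' ⊤ = LL p M χ' (nz D')) →
    Red p M D χ Q N

/-- **ONB2**: the bound for the normaliser. -/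
def ONB2_stmt : Prop :=
  ∀ (p : ℕ) (M : Ideal (integralClosure ℤ ℂ)), Setup p M → ∀ (G : Type) [Group G] [Finite G]
    (D : Subgroup G) (x : G) (θ χ : G → ℂ), Rt p M D x θ χ → Hy2 p M D θ →
    ∃ l : ℕ, LL p M χ (nz D) = l ∧ 1 ≤ l ∧ l + 1 < p

/-- **TG2**: the alternating sum of the `LL`. -/
def TG2_stmt : Prop :=
  ∀ (p : ℕ) (M : Ideal (integralClosure ℤ ℂ)), Setup p M → ∀ (G : Type) [Group G] [Finite G]
    (D : Subgroup G) (x : G) (θ χ : G → ℂ), Rt p M D x θ χ → Hy2 p M D θ →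
    ∀ R : Subgroup G, IsOp p (⊤ : Subgroup G) R → R ≤ D → R ≠ D →
    (∀ (G' : Type) [Group G'] [Finite G'], Nat.card G' < Nat.card G → ∀ (D' : Subgroup G') (x' : G')
      (θ' χ' : G' → ℂ), Rt p M D' x' θ' χ' → Hy2 p M D' θ' → LL p M χ' ⊤ = LL p M χ' (nz D')) →
    ∑ᶠ C ∈ {C : Finset (Subgroup G) | NCh p ⊤ R C},
      (-1 : ℂ) ^ (C.card + 1) * ((Nat.card (nrm C) : ℂ) * LL p M χ (nrm C)) =
        (Nat.card G : ℂ) * (LL p M χ ⊤ - LL p M χ (nz D))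

/-- **MN2**: `l(B) = l(B_N)`. -/
def MN2_stmt : Prop :=
  ∀ (p : ℕ) (M : Ideal (integralClosure ℤ ℂ)), Setup p M → ∀ (G : Type) [Group G] [Finite G]
    (D : Subgroup G) (x : G) (θ χ : G → ℂ), Rt p M D x θ χ → Hy2 p M D θ →
    LL p M χ ⊤ = LL p M χ (nz D)

/-- **HN2**: all heights in the local blocks are zero. -/
def HN2_stmt : Prop :=
  ∀ (p : ℕ) (M : Ideal (integralClosure ℤ ℂ)), Setup p M → ∀ (G : Type) [Group G] [Finite G]
    (D : Subgroup G) (x : G) (θ χ : G → ℂ), Rt p M D x θ χ → Hy2 p M D θ →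
    ∀ Q N : Subgroup G, IsPGroup p Q → Q ≤ N → cz Q ≤ N → N ≤ nz Q →
    ∀ φ ∈ Blk M χ N, ∀ a : ℕ, Nat.card D = p ^ a → Defect p N φ a

/-- **AM2**: `k(B) = k(B_N)`. -/
def AM2_stmt : Prop :=
  ∀ (p : ℕ) (M : Ideal (integralClosure ℤ ℂ)), Setup p M → ∀ (G : Type) [Group G] [Finite G]
    (D : Subgroup G) (x : G) (θ χ : G → ℂ), Rt p M D x θ χ → Hy2 p M D θ →
    (Blk M χ (⊤ : Subgroup G)).ncard = (Blk M χ (nz D)).ncard

/-- **FN2**: Dade's conjecture for `B`, `E = G`, all defects `d`. -/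
def FN2_stmt : Prop :=
  ∀ (p : ℕ) (M : Ideal (integralClosure ℤ ℂ)), Setup p M → ∀ (G : Type) [Group G] [Finite G]
    (D : Subgroup G) (x : G) (θ χ : G → ℂ), Rt p M D x θ χ → Hy2 p M D θ → D ≠ ⊥ →
    IsOp p (⊤ : Subgroup G) ⊥ → ∀ d : ℤ, altSum (trivE G) p M χ d ⊤ = 0

end Pool.Agent.FI4B
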