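import Mathlib
import Pool.Agent.helper58.FI4E.Spec
import Pool.Agent.helper83.FI4B.Stm

/-!
# Project fi4, version FI4+ (MP_baa4d7_al): the equivariant version FI4E for the condition `Hy2`, `p > 3`

ROWS: BTP, BTR, MNE2. One file `Pool/Agent/<seat>/FI4B/XXX.lean`, `import Pool.Agent.helper83.FI4B.SpecE2`, `namespace Pool.Agent.FI4B`, header as here, auxiliary lemmas prefixed `XXX_`, no sorry, no double quotes in the file, no `convert`, no `congr!`.
The other statements are copies of statements of FI4E with `Hy2` (ported by script by helper83).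
-/

set_option autoImplicit false

namespace Pool.Agent.FI4B

open Pool.Agent.helper58.DC Pool.Agent.DI Pool.Agent.GR Pool.Agent.OB Pool.Agent.DR Pool.Agent.FI Pool.Agent.FI3 Pool.Agent.FI4 Pool.Agent.FI4I Pool.Agent.FI4E

/-- **BTP** (medium; pure linear algebra; compare PRP, `helper76/FI4E/PRP.lean`). Proof: (1) `F = m⁻¹ • ∑_{j<m} E * P ^ j` is idempotent (`E` and `P` commute, `E * E = E`, `P ^ m = 1`), and the trace of an idempotent matrix is a natural number (see `Pool/Agent/*/FI4/LBN.lean` or `PRP.lean`). (2) Let `w` be a primitive `m`-th root of unity,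
`a i = trace (m⁻¹ • ∑_{j<m} w^(-i j) • E * P ^ j)`: again the trace of an idempotent matrix, a natural number, and `t j := trace (E * P ^ j) = ∑_{i<m} a i * w^(i j)` (finite Fourier inversion). `j` prime to `m`: a field automorphism `σ` of `ℂ` with `σ w = w ^ j` (as in PRP, or `VGA_cyc` of `helper72/SJ/VGA.lean`; copy) fixes the rational number `t 1` and
the natural numbers `a i`: `t 1 = σ (t 1) = ∑ a i * w^(i j) = t j`. -/
def BTP_stmt : Prop :=
  ∀ (ι : Type) [Fintype ι] [DecidableEq ι] (E P : Matrix ι ι ℂ) (m : ℕ), 0 < m → E * E = E → E * P = P * E →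
    P ^ m = 1 → (∀ j : ℕ, ∃ q : ℚ, (E * P ^ j).trace = (q : ℂ)) →
    (∃ a : ℕ, ∑ j ∈ Finset.range m, (E * P ^ j).trace = (m : ℂ) * a) ∧
    ∀ j : ℕ, j.Coprime m → (E * P ^ j).trace = (E * P).trace

/-- **BTR** (short to medium; from BTP, RAT, QEI, BCL, B2, BAA, IM of DC; the reduction is that of PRK, `helper27/FI4E/PRK.lean`: copy it). Proof: `ι`, `E`, `P` as in the docstring of PRK (`trace (E * P ^ j) = tL p M χ H (α ^ j)`, rational by RAT, `P ^ m = 1`), BTP. -/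
def BTR_stmt : Prop :=
  ∀ (p : ℕ) (M : Ideal (integralClosure ℤ ℂ)), Setup p M → ∀ (G : Type) [Group G] [Finite G]
    (χ : G → ℂ) (H : Subgroup G) (α : MulAut G), am α H = H → Stb M χ α → ∀ m : ℕ, 0 < m → α ^ m = 1 →
    (∃ a : ℕ, ∑ j ∈ Finset.range m, tL p M χ H (α ^ j) = (m : ℂ) * a) ∧
    ∀ j : ℕ, j.Coprime m → tL p M χ H (α ^ j) = tL p M χ H α

/-- **IHE2** (port of IHE). -/
def IHE2_stmt : Prop :=
  ∀ (p : ℕ) (M : Ideal (integralClosure ℤ ℂ)), Setup p M → ∀ (G : Type) [Group G] [Finite G]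
    (D : Subgroup G) (x : G) (θ χ : G → ℂ), Rt p M D x θ χ → Hy2 p M D θ → ∀ Q N : Subgroup G,
    Mid p Q N →
    (∀ (D' : Subgroup N) (x' : N) (θ' χ' : N → ℂ), Rt p M D' x' θ' χ' → Hy2 p M D' θ' →
      ∀ β : MulAut N, am β D' = D' → Stb M χ' β → tL p M χ' ⊤ β = tL p M χ' (nz D') β) →
    RedE p M D χ Q N

/-- **TGE2** (port of TG4E). -/
def TGE2_stmt : Prop :=
  ∀ (p : ℕ) (M : Ideal (integralClosure ℤ ℂ)), Setup p M → ∀ (G : Type) [Group G] [Finite G]
    (D : Subgroup G) (x : G) (θ χ : G → ℂ), Rt p M D x θ χ → Hy2 p M D θ →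
    ∀ R : Subgroup G, IsOp p (⊤ : Subgroup G) R → R ≤ D → R ≠ D → ∀ α : MulAut G, am α D = D → Stb M χ α →
    (∀ (G' : Type) [Group G'] [Finite G'], Nat.card G' < Nat.card G → ∀ (D' : Subgroup G') (x' : G')
      (θ' χ' : G' → ℂ), Rt p M D' x' θ' χ' → Hy2 p M D' θ' → ∀ β : MulAut G', am β D' = D' → Stb M χ' β →
      tL p M χ' ⊤ β = tL p M χ' (nz D') β) →
    Om p M χ R α = (Nat.card G : ℂ) * (tL p M χ ⊤ α - tL p M χ (nz D) α)

/-- **MNE2** (medium; from TGE2, DV4E, OPD, BHT, BBD, ONB2, MN2, BDE, PRK, BTR, BAA, BCL, IM of DC; PORT of MN4E, `helper28/FI4E/MN4E.lean`, with `3 < p` as hypothesis). Proof: strong induction on `Nat.card G` as in MN4E; `R ≠ D`. `l`, `l'` from BBD, ONB2: `l + 1 < p`, `l' + 1 < p`, `1 ≤ l, l'`; `l = l'` by MN2. As in MN4E: `α' = α ^ k`, `α' ^ m₁ = 1`, `Sml p m₁`,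
`tL .. α' = tL .. α` for `⊤` and `nz D` by PRK (`q ≥ p > l + 1`). CLAIM: for every `β` with `am β D = D`, `Stb M χ β`, all prime divisors of `m = orderOf β` smaller than `p`: `Δ β := tL ⊤ β - tL (nz D) β = 0`. Strong induction on `m`. `m = 1`: `β = 1`, `Δ = LL ⊤ - LL (nz D) = 0` (MN2; `funMap 1 ψ = ψ`). `m > 1`: TGE2 with the induction
hypothesis for the smaller groups and DV4E give `Δ β = p * e`, `e : ℤ`, and BDE gives `|Δ β| ≤ l + l' < 2 p`, so `e ∈ {-1, 0, 1}`. BTR for `⊤` and `nz D` (`β ^ m = 1`): `∑_{j<m} Δ (β ^ j) = m * (a - a')`. `Δ (β ^ j) = 0` if `j` is not prime to `m` (the order of `β ^ j` is a proper divisor of `m`: claim for the smaller order; `j = 0` too), `Δ (β ^ j) = Δ β` if `j` is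
prime to `m` (BTR). So `m` divides `φ(m) * p * e` in `ℤ`; `m` is prime to `p` (all prime divisors are smaller), so `m ∣ φ(m) * e`, and `0 < φ(m) < m`, `|e| ≤ 1` give `e = 0`. -/
def MNE2_stmt : Prop :=
  ∀ (p : ℕ) (M : Ideal (integralClosure ℤ ℂ)), Setup p M → 3 < p → ∀ (G : Type) [Group G] [Finite G]
    (D : Subgroup G) (x : G) (θ χ : G → ℂ), Rt p M D x θ χ → Hy2 p M D θ →
    ∀ α : MulAut G, am α D = D → Stb M χ α → tL p M χ ⊤ α = tL p M χ (nz D) α

/-- **DHZ2** (port). -/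
def DHZ2_stmt : Prop :=
  ∀ (p : ℕ) (M : Ideal (integralClosure ℤ ℂ)), Setup p M → ∀ (G E A : Type) [Group G] [Group E] [Group A]
    [Finite G] [Finite E] (X : Extension G E A) (D : Subgroup G) (x : G)
    (θ χ : G → ℂ), Rt p M D x θ χ → Hy2 p M D θ → ∀ a : ℕ, Nat.card D = p ^ a → ∀ d : ℤ, d ≠ a →
    ∀ U : Subgroup A, altSum X p M χ d U = 0

/-- **DSZ2** (port). -/
def DSZ2_stmt : Prop :=
  ∀ (p : ℕ) (M : Ideal (integralClosure ℤ ℂ)), Setup p M → 3 < p → ∀ (G E A : Type) [Group G] [Group E] [Group A]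
    [Finite G] [Finite E] (X : Extension G E A), IsOp p (⊤ : Subgroup G) ⊥ → ∀ (D : Subgroup G) (x : G)
    (θ χ : G → ℂ), Rt p M D x θ χ → Hy2 p M D θ → D ≠ ⊥ → ∀ a : A, dadeSum X p M χ a = 0

/-- **DSE2** (port). -/
def DSE2_stmt : Prop :=
  ∀ (p : ℕ) (M : Ideal (integralClosure ℤ ℂ)), Setup p M → 3 < p → ∀ (G E A : Type) [Group G] [Group E] [Group A]
    [Finite G] [Finite E] (X : Extension G E A), IsOp p (⊤ : Subgroup G) ⊥ → ∀ (D : Subgroup G) (x : G)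
    (θ χ : G → ℂ), Rt p M D x θ χ → Hy2 p M D θ → D ≠ ⊥ → ∀ (a : A) (d : ℤ),
    ∑ᶠ U : {U : Subgroup A // a ∈ U}, altSum X p M χ d U.1 = 0

/-- **DSC2** (port). -/
def DSC2_stmt : Prop :=
  ∀ (p : ℕ) (M : Ideal (integralClosure ℤ ℂ)), Setup p M → 3 < p → ∀ (G E A : Type) [Group G] [Group E] [Group A]
    [Finite G] [Finite E] (X : Extension G E A), IsOp p (⊤ : Subgroup G) ⊥ → ∀ (D : Subgroup G) (x : G)
    (θ χ : G → ℂ), Rt p M D x θ χ → Hy2 p M D θ → D ≠ ⊥ →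
    ∀ s : A, (∀ a ∈ Pool.Agent.BQ.AB X M χ, ∃ k : ℤ, s ^ k * a ∈ Pool.Agent.BQ.AI X M χ) →
    ∀ (d : ℤ) (U : Subgroup A), altSum X p M χ d U = 0

end Pool.Agent.FI4B
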