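import Pool.Agent.helper83.FI4B.SpecE2

/-!
# Project fi4e, row DSC: cyclic quotient, all subgroups
-/

set_option autoImplicit false

namespace Pool.Agent.FI4B

open Pool.Agent.helper58.DC Pool.Agent.DI Pool.Agent.GR Pool.Agent.OB Pool.Agent.DR Pool.Agent.FI Pool.Agent.FI3 Pool.Agent.FI4 Pool.Agent.FI4I Pool.Agent.FI4E

/-- a subgroup between `K` and `V` generated modulo `K` by a power of `s` -/
theorem DSC_gen {A : Type} [Group A] (K L V : Subgroup A) (s : A) (hs : ∀ a ∈ L, ∃ k : ℤ, s ^ k * a ∈ K)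
    (hK : K ≤ V) (hL : V ≤ L) : ∃ b : A, Subgroup.zpowers b ⊔ K = V := by
  let H : AddSubgroup ℤ :=
    { carrier := {k | s ^ k ∈ V}
      zero_mem' := by
        change s ^ (0 : ℤ) ∈ V
        rw [zpow_zero]
        exact V.one_mem
      add_mem' := fun {a b} ha hb => by
        change s ^ (a + b) ∈ V
        rw [zpow_add]
        exact V.mul_mem ha hb
      neg_mem' := fun {a} ha => by
        change s ^ (-a) ∈ V
        rw [zpow_neg]
        exact V.inv_mem ha }
  obtain ⟨j, hj⟩ := Int.subgroup_cyclic H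
  have hjH : s ^ j ∈ V := by
    have h1 : j ∈ H := by
      rw [hj]
      exact AddSubgroup.subset_closure rfl
    exact h1
  refine ⟨s ^ j, le_antisymm (sup_le ?_ hK) ?_⟩
  · rw [Subgroup.zpowers_le]
    exact hjH
  · intro v hv
    obtain ⟨k, hk⟩ := hs v (hL hv)
    have h1 : s ^ k ∈ V := by
      have h2 : s ^ k = s ^ k * v * v⁻¹ := by group
      rw [h2]
      exact V.mul_mem (hK hk) (V.inv_mem hv)
    have h3 : k ∈ H := h1
    rw [hj, AddSubgroup.mem_closure_singleton] at h3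
    obtain ⟨m, hm⟩ := h3
    have h4 : v = (s ^ j) ^ (-m) * (s ^ k * v) := by
      rw [← zpow_mul, ← mul_assoc, ← zpow_add, ← hm, smul_eq_mul]
      have h5 : j * -m + m * j = 0 := by ring
      rw [h5, zpow_zero, one_mul]
    rw [h4]
    exact Subgroup.mul_mem_sup (Subgroup.zpow_mem_zpowers _ _) hk

theorem DSC2 (hDSE : DSE2_stmt) (hZRO : Pool.Agent.BQ.ZRO_stmt) (hDWN : Pool.Agent.BQ.DWN_stmt) : DSC2_stmt := by
  intro p M hM hp3 G E A _ _ _ _ _ X hOp D x θ χ hRt hHyp hD s hs d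
  haveI : Fact p.Prime := ⟨hM.pr⟩
  haveI : Finite A := Finite.of_surjective X.proj X.proj_surjective
  refine hDWN A (fun U => altSum X p M χ d U) (Pool.Agent.BQ.AI X M χ) (Pool.Agent.BQ.AB X M χ) ?_ ?_
  · intro V hV
    exact (hZRO G E A X p M hM.max hM.mem χ hRt.chi d V hV).2
  · intro V hK hL
    obtain ⟨b, hb⟩ := DSC_gen _ _ V s hs hK hL
    refine ⟨Subgroup.zpowers b, hb, ?_⟩
    have h1 := hDSE p M hM hp3 G E A X hOp D x θ χ hRt hHyp hD b d
    rw [← h1]
    exact finsum_comp_equiv (Equiv.subtypeEquivRight fun W : Subgroup A => Subgroup.zpowers_le (g := b) (H := W))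
      (f := fun U : {U : Subgroup A // b ∈ U} => altSum X p M χ d U.1)

end Pool.Agent.FI4B
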