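import Pool.Agent.helper83.FI4B.Stm

set_option autoImplicit false

namespace Pool.Agent.FI4B

open Pool.Agent.helper58.DC Pool.Agent.DI Pool.Agent.GR Pool.Agent.OB Pool.Agent.DR Pool.Agent.FI Pool.Agent.FI3 Pool.Agent.FI4 Pool.Agent.FI4I

theorem ONB_cz_le_nz {G : Type} [Group G] (D : Subgroup G) : cz D ≤ nz D := by
  intro x hx
  rw [Subgroup.mem_centralizer_iff] at hx
  rw [Subgroup.mem_normalizer_iff]
  intro d
  constructor
  · intro hd
    have h1 : x * d * x⁻¹ = d := by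
      rw [← hx d hd]
      group
    rw [h1]
    exact hd
  · intro hd
    have h1 := hx _ hd
    have h2 : x * d * x⁻¹ = d := by
      have h3 : x * d = x * (x * d * x⁻¹) := by
        rw [← h1]
        group
      have h4 : d = x * d * x⁻¹ := mul_left_cancel h3
      exact h4.symm
    rw [h2] at hd
    exact hd

theorem ONB_eq {G : Type} [Group G] [Finite G] (D : Subgroup G) (g : G) (hc : Nat.card (cjS g D) = Nat.card D)
    (h : cjS g D ≤ D) : cjS g D = D :=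
  Subgroup.eq_of_le_of_card_ge h hc.ge

theorem ONB2 (hBKV : BKV_stmt) (hCON : CON_stmt) (hEXB : EXB_stmt) (hFEQ : FEQ_stmt) (hFSI : FSI_stmt)
    (hCJG : CJG_stmt) (hRTN : RTN_stmt) (hHYN : BHN_stmt) (hTRL : TRL_stmt) (hBD4 : BBD_stmt) :
    ONB2_stmt := by
  intro p M hS G _ _ D x θ χ hR hH
  have hcn : cz D ≤ nz D := ONB_cz_le_nz D
  have hDn : D ≤ nz D := Subgroup.le_normalizer
  have hpg : IsPGroup p D := hR.dfa.pgrp
  have hMid : Mid p D (nz D) := ⟨hpg, hDn, hcn, le_refl _⟩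
  have hinf : nz D ⊓ cz D = cz D := inf_eq_right.2 hcn
  obtain ⟨φ₀, hφ₀, hSB₀⟩ := hEXB p M hS G (nz D) D hpg hDn θ (by rw [hinf]; exact hR.th)
  have hθ0 : ∀ y, y ∉ nz D → θ y = 0 := fun y hy => hR.th.1 y fun h => hy (hcn h)
  have hset : Blk M χ (nz D) = {ζ : G → ℂ | ζ ∈ IrrOn (nz D) ∧ SB M (nz D) ζ φ₀} := by
    ext ζ
    constructor
    · rintro ⟨hζ, hI⟩
      refine ⟨hζ, ?_⟩
      have h1 : cjS (1 : G) D = D := (hFEQ G M 1 1 D D D θ θ χ).1.2.2.1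
      have h2 := hBKV p M hS G D x θ χ hR D (nz D) hMid 1 (by rw [h1])
      rw [h1] at h2
      obtain ⟨-, -, -, h3⟩ := h2
      rw [inf_idem] at h3
      obtain ⟨θ₁, hθ₁, h4, -⟩ := h3 ζ hζ
      have hθ₁0 : ∀ y, y ∉ nz D → θ₁ y = 0 := fun y hy => hθ₁.1 y fun h => hy (hcn h)
      have hI₁ : Induces M θ₁ χ :=
        ((hFSI p M hS G (nz D) (nz D) θ₁ ζ).2 hθ₁0 (fun y hy => hζ.1 y hy) h4 χ).2 hI
      obtain ⟨g, hg, h5⟩ := hCON p M hS G D x θ χ hR D hpg θ₁ hθ₁ hI₁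
      have hF := hFEQ G M g g D D (cz D) θ θ₁ χ
      obtain ⟨-, ⟨hcz, -, -, hnz, -, hcard⟩, -, hIrr, -, -, -, -, -⟩ := hF
      have h6 : cjS g D = D := ONB_eq D g hcard hg
      have h7 : g ∈ nz D := hnz.1 h6
      have h8 : SB M (cz D) θ (cjF g θ₁) := by
        have h9 : SB M (cz (cjS g D)) θ (cjF g θ₁) := h5
        rw [h6] at h9
        exact h9
      have h10 : cjF g θ₁ ∈ IrrOn (cz D) := by
        have h11 := hIrr.1 hθ₁
        rw [← hcz, h6] at h11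
        exact h11
      have h12 : SB M (nz D) θ (cjF g θ₁) :=
        (hFSI p M hS G (cz D) (nz D) θ (cjF g θ₁)).1 hcn (fun y hy => hR.th.1 y hy)
          (fun y hy => h10.1 y hy) h8
      have h13 : SB M (nz D) (cjF g θ₁) θ₁ :=
        ((hCJG G M p g (nz D)).2.2.2.2.2.1 h7 θ₁).1
      exact h4.symm.trans (h13.symm.trans (h12.symm.trans hSB₀))
    · rintro ⟨hζ, hS1⟩
      refine ⟨hζ, ?_⟩
      exact ((hFSI p M hS G (nz D) (nz D) θ ζ).2 hθ0 (fun y hy => hζ.1 y hy)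
        (hSB₀.trans hS1.symm) χ).1 hR.ind
  obtain ⟨x'', hRN⟩ := hRTN p M hS G D x θ χ hR (nz D) hcn φ₀ hφ₀ hSB₀
  have hHN := hHYN p M hS G D (nz D) hDn hcn θ hR.th hH
  obtain ⟨l, hl1, hl2, hl3⟩ := hBD4 p M hS (nz D) (D.subgroupOf (nz D)) x'' (rN (nz D) θ)
    (rN (nz D) φ₀) hRN hHN
  refine ⟨l, ?_, hl2, hl3⟩
  rw [← hl1, (hTRL p M hS G (nz D) φ₀ hφ₀).2.1]
  unfold LL LB
  rw [hset]

end Pool.Agent.FI4B
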