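import Pool.Agent.helper83.FI4B.SpecE2

/-!
# Project fi4e (MP_baa4d7_al), block E2, row TG4E: the alternating sum, equivariant form
-/

set_option autoImplicit false

namespace Pool.Agent.FI4B

open Pool.Agent.helper58.DC Pool.Agent.DI Pool.Agent.GR Pool.Agent.OB Pool.Agent.DR Pool.Agent.FI Pool.Agent.FI3 Pool.Agent.FI4 Pool.Agent.FI4I Pool.Agent.FI4E

open Classical in
theorem TG4E_fs {ι : Type} [Fintype ι] (S : Set ι) (f : ι → ℂ) : ∑ᶠ x ∈ S, f x = ∑ x : ι, if x ∈ S then f x else 0 := by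
  rw [finsum_eq_sum_of_fintype]
  refine Finset.sum_congr rfl fun x _ => ?_
  by_cases h : x ∈ S
  · rw [if_pos h, finsum_eq_if, if_pos h]
  · rw [if_neg h, finsum_eq_if, if_neg h]

/-- exchange of two finite sums -/
theorem TG4E_ex {ι κ : Type} [Finite ι] [Finite κ] (A : Set κ) (B : ι → κ → Prop) (a : κ → ℂ) (t : κ → ι → ℂ) :
    ∑ᶠ g : ι, ∑ᶠ C ∈ {C : κ | C ∈ A ∧ B g C}, a C * t C g = ∑ᶠ C ∈ A, a C * ∑ᶠ g ∈ {g : ι | B g C}, t C g := by
  classical
  have : Fintype ι := Fintype.ofFinite ι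
  have : Fintype κ := Fintype.ofFinite κ
  rw [finsum_eq_sum_of_fintype, TG4E_fs, Finset.sum_congr rfl fun g _ => TG4E_fs {C : κ | C ∈ A ∧ B g C} fun C => a C * t C g,
    Finset.sum_comm]
  refine Finset.sum_congr rfl fun C _ => ?_
  by_cases hC : C ∈ A
  · rw [if_pos hC, TG4E_fs, Finset.mul_sum]
    refine Finset.sum_congr rfl fun g _ => ?_
    by_cases hB : B g C
    · rw [if_pos (show C ∈ {C : κ | C ∈ A ∧ B g C} from ⟨hC, hB⟩), if_pos (show g ∈ {g : ι | B g C} from hB)]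
    · rw [if_neg (show C ∉ {C : κ | C ∈ A ∧ B g C} from fun h => hB h.2), if_neg (show g ∉ {g : ι | B g C} from hB), mul_zero]
  · rw [if_neg hC]
    exact Finset.sum_eq_zero fun g _ => if_neg fun h => hC h.1

theorem TGE2 (hTOE : TOE_stmt) (hLCG : LCG_stmt) (hIHE : IHE2_stmt) (hFMX3 : FMX3_stmt) (hTSI : TSI_stmt) (hBAA : BAA_stmt) : TGE2_stmt := by
  classical
  intro p M hs G _ _ D x θ χ hRt hHyp R hR hRD hRne α hα hSt hIH
  have hc0 : (Nat.card (nz D) : ℂ) ≠ 0 := Nat.cast_ne_zero.2 Nat.card_pos.ne'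
  apply mul_left_cancel₀ hc0
  have hRN : nz R = ⊤ := top_le_iff.1 hR.1.2.2
  have hCR : NCh p ⊤ R ({R} : Finset (Subgroup G)) := by
    refine ⟨⟨?_, Finset.mem_singleton_self R, ?_, fun _ _ => le_top, ?_⟩, ?_⟩
    · rw [Finset.coe_singleton]
      exact Set.subsingleton_singleton.isChain
    · intro Q hQ
      rw [Finset.mem_singleton.1 hQ]
    · intro Q hQ
      rw [Finset.mem_singleton.1 hQ]
      exact hR.1.2.1
    · intro Q hQ Q' hQ' _
      rw [Finset.mem_singleton.1 hQ, hRN]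
      exact le_top
  have hnR : nrm ({R} : Finset (Subgroup G)) = ⊤ := by
    unfold nrm
    rw [Finset.iInf_singleton]
    exact hRN
  have hset : {C : Finset (Subgroup G) | NCh p ⊤ R C} = insert {R} {C : Finset (Subgroup G) | NCh p ⊤ R C ∧ C ≠ {R}} := by
    ext C
    rw [Set.mem_insert_iff]
    constructor
    · intro h
      by_cases h1 : C = {R}
      · exact Or.inl h1
      · exact Or.inr ⟨h, h1⟩
    · rintro (h | h)
      · rw [h]
        exact hCR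
      · exact h.1
  have hnot : ({R} : Finset (Subgroup G)) ∉ {C : Finset (Subgroup G) | NCh p ⊤ R C ∧ C ≠ {R}} := fun h => h.2 rfl
  have hOm : Om p M χ R α = ∑ᶠ C ∈ {C : Finset (Subgroup G) | NCh p ⊤ R C}, (-1 : ℂ) ^ (C.card + 1) *
      ∑ᶠ g ∈ {g : G | FxC (al α g) C}, tL p M χ (nrm C) (al α g) :=
    TG4E_ex {C : Finset (Subgroup G) | NCh p ⊤ R C} (fun g C => FxC (al α g) C) (fun C => (-1 : ℂ) ^ (C.card + 1))
      (fun C g => tL p M χ (nrm C) (al α g))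
  -- the chain with one term
  have hfirst : ∑ᶠ g ∈ {g : G | FxC (al α g) ({R} : Finset (Subgroup G))}, tL p M χ (⊤ : Subgroup G) (al α g) =
      (Nat.card G : ℂ) * tL p M χ ⊤ α := by
    have h1 : {g : G | FxC (al α g) ({R} : Finset (Subgroup G))} = Set.univ := by
      ext g
      refine ⟨fun _ => Set.mem_univ _, fun _ Q hQ => ?_⟩
      rw [Finset.mem_singleton.1 hQ]
      exact (hBAA G M p (al α g) R R R χ χ χ).1.2.2.2.2.2.2.2.2 hR
    have h2 : am α ⊤ = ⊤ := (hBAA G M p α R R R χ χ χ).1.2.2.2.2.2.1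
    have h3 : ∀ g : G, tL p M χ (⊤ : Subgroup G) (al α g) = tL p M χ ⊤ α := fun g =>
      (hTSI p G ⊤ α h2 g (Subgroup.mem_top g)).2 (Blk M χ ⊤) fun ψ hψ => hψ.1
    have : Fintype G := Fintype.ofFinite G
    rw [h1, finsum_mem_univ, finsum_congr h3, finsum_eq_sum_of_fintype, Finset.sum_const, Finset.card_univ, nsmul_eq_mul,
      Nat.card_eq_fintype_card]
  have hterm : ∀ C ∈ {C : Finset (Subgroup G) | NCh p ⊤ R C ∧ C ≠ {R}},
      (Nat.card (nz D) : ℂ) * ((-1 : ℂ) ^ (C.card + 1) * ∑ᶠ g ∈ {g : G | FxC (al α g) C}, tL p M χ (nrm C) (al α g)) =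
      (-1 : ℂ) ^ (C.card + 1) * ∑ᶠ g ∈ {g : G | FxC (al α g) C},
        ∑ᶠ h ∈ {h : G | (∀ Q ∈ C, Q ≤ cjS h D) ∧ am (al α g) (cjS h D) = cjS h D},
          tL p M χ (nrm C ⊓ nz (cjS h D)) (al α g) := by
    rintro C ⟨hC, hne⟩
    obtain ⟨Q, hQC, hRQ, hQp, -, hmax, hQn, hnz, hcz⟩ := hFMX3 G p ⊤ R C hC hne
    have hMid : Mid p Q (nrm C) := ⟨hQp, hQn, hcz, hnz⟩
    have hnt : nrm C ≠ ⊤ := by
      intro h
      have h1 : Q ≤ R := hR.2 ⟨le_top, hQp, by rw [← h]; exact hnz⟩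
      exact absurd hRQ (not_lt_of_ge h1)
    have hlt : Nat.card (nrm C) < Nat.card G :=
      lt_of_le_of_ne (Subgroup.card_le_card_group _) fun h => hnt (Subgroup.eq_top_of_card_eq _ h)
    have hRed : RedE p M D χ Q (nrm C) := hIHE p M hs G D x θ χ hRt hHyp Q (nrm C) hMid
      (fun D' x' θ' χ' h1 h2 => hIH (nrm C) hlt D' x' θ' χ' h1 h2)
    have hL := hLCG p M hs G D x θ χ hRt C Q hQC hmax hMid hRed α hα
    rw [← hL]
    ring
  rw [hOm, hset, finsum_mem_insert _ hnot (Set.toFinite _), hnR, Finset.card_singleton, hfirst, mul_add,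
    mul_finsum_mem, finsum_mem_congr rfl hterm, hTOE p M hs G D x θ χ hRt R hR hRD hRne α hα]
  ring

end Pool.Agent.FI4B
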