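import Mathlib
import Pool.Agent.helper83.FI4B.SpecE2
import Pool.Agent.helper12.FI4.SpecXL

/-!
# Project fi4, version FI4+ (MP_baa4d7_al): the traces of automorphisms if `l = 1`; the case `p = 3`
-/

set_option autoImplicit false

namespace Pool.Agent.FI4B

open Pool.Agent.helper58.DC Pool.Agent.DI Pool.Agent.GR Pool.Agent.OB Pool.Agent.DR Pool.Agent.FI Pool.Agent.FI3 Pool.Agent.FI4 Pool.Agent.FI4I Pool.Agent.FI4E

/-- **TLO**: if there is only one irreducible Brauer character, every automorphism has the trace `1`. -/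
def TLO_stmt : Prop :=
  ∀ (p : ℕ) (M : Ideal (integralClosure ℤ ℂ)), Setup p M → ∀ (G : Type) [Group G] [Finite G]
    (χ : G → ℂ) (H : Subgroup G), LL p M χ H = 1 → ∀ α : MulAut G, am α H = H → Stb M χ α →
    tL p M χ H α = 1

theorem TLO (hXL : XL_stmt) (hB2 : B2_stmt) (hBAA : BAA_stmt) (hIM : IM_stmt) : TLO_stmt := by
  intro p M hS G _ _ χ H hL α hαH hst
  have hirr : ∀ (γ : MulAut G) (L : Subgroup G) (ψ : G → ℂ), ψ ∈ IrrOn L ↔ funMap γ ψ ∈ IrrOn (am γ L) :=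
    fun γ L ψ => (hBAA G M p γ L L L χ ψ χ).2.2.1
  have hmem : ∀ ψ ∈ Blk M χ H, funMap α ψ ∈ Blk M χ H := by
    intro ψ hψ
    refine ⟨?_, ?_⟩
    · have h1 := (hirr α H ψ).1 hψ.1
      rw [hαH] at h1
      exact h1
    · exact (hIM G M (funMap α ψ) (funMap α χ) χ).2.2.1
        (((hIM G M ψ χ χ).2.2.2 α).2 hψ.2) hst
  have h1 : (Pool.Agent.FIW.brauerNumber p M χ H : ℂ) = 1 := by
    rw [← hXL p M hS G χ H]
    exact hL
  have h2 : Pool.Agent.FIW.brauerNumber p M χ H = 1 := by exact_mod_cast h1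
  have h3 : Module.finrank ℂ (Submodule.span ℂ
      ((fun (ψ : G → ℂ) (v : {v : G // v ∈ H ∧ ¬ p ∣ orderOf v}) => ψ v) '' {ψ : G → ℂ | ψ ∈ IrrOn H ∧ Induces M ψ χ})) = 1 := h2
  obtain ⟨w, _, hw⟩ := finrank_eq_one_iff'.1 h3
  have key : ∀ ψ ∈ Blk M χ H, ∀ v : G, v ∈ H → PReg p v → funMap α ψ v = ψ v := by
    intro ψ hψ v hv hpv
    obtain ⟨c, hc⟩ := hw ⟨fun v => ψ v, Submodule.subset_span ⟨ψ, hψ, rfl⟩⟩
    obtain ⟨c', hc'⟩ := hw ⟨fun v => funMap α ψ v, Submodule.subset_span ⟨funMap α ψ, hmem ψ hψ, rfl⟩⟩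
    have e1 : ∀ v : {v : G // v ∈ H ∧ ¬ p ∣ orderOf v}, c * (w : {v : G // v ∈ H ∧ ¬ p ∣ orderOf v} → ℂ) v = ψ v :=
      fun v => congrFun (congrArg Subtype.val hc) v
    have e2 : ∀ v : {v : G // v ∈ H ∧ ¬ p ∣ orderOf v}, c' * (w : {v : G // v ∈ H ∧ ¬ p ∣ orderOf v} → ℂ) v =
        funMap α ψ v := fun v => congrFun (congrArg Subtype.val hc') v
    have hone : ¬ p ∣ orderOf (1 : G) := by
      rw [orderOf_one]
      intro h
      exact hS.pr.one_lt.ne' (Nat.dvd_one.1 h)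
    have e3 := e1 ⟨1, H.one_mem, hone⟩
    have e4 := e2 ⟨1, H.one_mem, hone⟩
    have e5 : funMap α ψ 1 = ψ 1 := by
      unfold funMap
      rw [map_one]
    obtain ⟨n, hn0, hn, _⟩ := ((hB2 G H).2 ψ hψ.1).1
    have hw0 : (w : {v : G // v ∈ H ∧ ¬ p ∣ orderOf v} → ℂ) ⟨1, H.one_mem, hone⟩ ≠ 0 := by
      intro h0
      rw [h0, mul_zero] at e3
      have h6 : (n : ℂ) = 0 := by
        rw [← hn]
        exact e3.symm
      exact hn0.ne' (by exact_mod_cast h6)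
    have hcc : c' = c := by
      apply mul_right_cancel₀ hw0
      rw [e3, e4]
      exact e5
    rw [← e2 ⟨v, hv, hpv⟩, ← e1 ⟨v, hv, hpv⟩, hcc]
  have hEE : ∀ ψ ∈ Blk M χ H, EE p H (funMap α ψ) ψ = EE p H ψ ψ := by
    intro ψ hψ
    unfold EE
    rw [finsum_mem_congr rfl fun v hv => by rw [key ψ hψ v hv.1 hv.2]]
  calc tL p M χ H α = ∑ᶠ ψ ∈ Blk M χ H, EE p H (funMap α ψ) ψ := rfl
    _ = ∑ᶠ ψ ∈ Blk M χ H, EE p H ψ ψ := finsum_mem_congr rfl hEE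
    _ = 1 := hL

/-- **MNE5**: MNE2 without the condition `3 < p`. -/
def MNE5_stmt : Prop :=
  ∀ (p : ℕ) (M : Ideal (integralClosure ℤ ℂ)), Setup p M → ∀ (G : Type) [Group G] [Finite G]
    (D : Subgroup G) (x : G) (θ χ : G → ℂ), Rt p M D x θ χ → Hy2 p M D θ →
    ∀ α : MulAut G, am α D = D → Stb M χ α → tL p M χ ⊤ α = tL p M χ (nz D) α

theorem MNE5 (hMNE2 : MNE2_stmt) (hTLO : TLO_stmt) (hBBD : BBD_stmt) (hMN2 : MN2_stmt) (hBAA : BAA_stmt) : MNE5_stmt := by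
  intro p M hS G _ _ D x θ χ hR hH α hα hst
  by_cases hp3 : 3 < p
  · exact hMNE2 p M hS hp3 G D x θ χ hR hH α hα hst
  obtain ⟨l, hl, hl1, hlp⟩ := hBBD p M hS G D x θ χ hR hH
  have hl2 : l = 1 := by omega
  rw [hl2, Nat.cast_one] at hl
  have hmn := hMN2 p M hS G D x θ χ hR hH
  have hnz : am α (nz D) = nz D := by
    rw [← (hBAA G M p α D D D χ χ χ).1.2.1, hα]
  have htop : am α (⊤ : Subgroup G) = ⊤ := (hBAA G M p α D D D χ χ χ).1.2.2.2.2.2.1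
  rw [hTLO p M hS G χ ⊤ hl α htop hst, hTLO p M hS G χ (nz D) (by rw [← hmn]; exact hl) α hnz hst]

end Pool.Agent.FI4B
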