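import Mathlib
import Pool.Agent.helper83.FI4B.TLO

/-!
# Project fi4, version FI4+ (MP_baa4d7_al): Dade's conjecture for extensions under `Hy2`, all `p`
-/

set_option autoImplicit false

namespace Pool.Agent.FI4B

open Pool.Agent.helper58.DC Pool.Agent.DI Pool.Agent.GR Pool.Agent.OB Pool.Agent.DR Pool.Agent.FI Pool.Agent.FI3 Pool.Agent.FI4 Pool.Agent.FI4I Pool.Agent.FI4E

/-- **DSZ5**: DSZ2 without the condition `3 < p`. -/
def DSZ5_stmt : Prop :=
  ∀ (p : ℕ) (M : Ideal (integralClosure ℤ ℂ)), Setup p M → ∀ (G E A : Type) [Group G] [Group E] [Group A]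
    [Finite G] [Finite E] (X : Extension G E A), IsOp p (⊤ : Subgroup G) ⊥ → ∀ (D : Subgroup G) (x : G)
    (θ χ : G → ℂ), Rt p M D x θ χ → Hy2 p M D θ → D ≠ ⊥ → ∀ a : A, dadeSum X p M χ a = 0

/-- **DSE5**: DSE2 without the condition `3 < p`. -/
def DSE5_stmt : Prop :=
  ∀ (p : ℕ) (M : Ideal (integralClosure ℤ ℂ)), Setup p M → ∀ (G E A : Type) [Group G] [Group E] [Group A]
    [Finite G] [Finite E] (X : Extension G E A), IsOp p (⊤ : Subgroup G) ⊥ → ∀ (D : Subgroup G) (x : G)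
    (θ χ : G → ℂ), Rt p M D x θ χ → Hy2 p M D θ → D ≠ ⊥ → ∀ (a : A) (d : ℤ),
    ∑ᶠ U : {U : Subgroup A // a ∈ U}, altSum X p M χ d U.1 = 0

/-- **DSC5**: DSC2 without the condition `3 < p`. -/
def DSC5_stmt : Prop :=
  ∀ (p : ℕ) (M : Ideal (integralClosure ℤ ℂ)), Setup p M → ∀ (G E A : Type) [Group G] [Group E] [Group A]
    [Finite G] [Finite E] (X : Extension G E A), IsOp p (⊤ : Subgroup G) ⊥ → ∀ (D : Subgroup G) (x : G)
    (θ χ : G → ℂ), Rt p M D x θ χ → Hy2 p M D θ → D ≠ ⊥ →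
    ∀ s : A, (∀ a ∈ Pool.Agent.BQ.AB X M χ, ∃ k : ℤ, s ^ k * a ∈ Pool.Agent.BQ.AI X M χ) →
    ∀ (d : ℤ) (U : Subgroup A), altSum X p M χ d U = 0

theorem DSZ5 (hOMX : OMX_stmt) (hOMR : OMR_stmt) (hDFA : DFA_stmt) (hTG4E : TGE2_stmt) (hMN4E : MNE5_stmt) (hBAA : BAA_stmt) : DSZ5_stmt := by
  intro p M hS G E A _ _ _ _ _ X hOp D x θ χ hRt hHyp hD a
  obtain ⟨e, rfl⟩ := X.proj_surjective a
  have hχ : χ ∈ Irr G := hRt.chi
  have h1 := hOMX p M hS G E A X hOp χ hχ e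
  have hG : (Nat.card G : ℂ) ≠ 0 := Nat.cast_ne_zero.2 Nat.card_pos.ne'
  have h0 : Om p M χ ⊥ (X.act e) = 0 := by
    by_cases hst : Stb M χ (X.act e)
    · obtain ⟨g, hg⟩ := hDFA p M hS G D x θ χ hRt (X.act e) hst
      rw [← (hOMR p M hS G χ ⊥ (X.act e)).1 g]
      have hb := hBAA G M p (X.act e) ⊥ ⊥ ⊥ χ χ χ
      have hst' : Stb M χ (al (X.act e) g) := ((hb.2.2.2.2.2.2.2.2.2.2 g hχ).2).2 hst
      rw [hTG4E p M hS G D x θ χ hRt hHyp ⊥ hOp bot_le (Ne.symm hD) _ hg hst'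
        (fun G' _ _ _ D' x' θ' χ' h2 h3 β h4 h5 => hMN4E p M hS G' D' x' θ' χ' h2 h3 β h4 h5),
        hMN4E p M hS G D x θ χ hRt hHyp _ hg hst', sub_self, mul_zero]
    · exact (hOMR p M hS G χ ⊥ (X.act e)).2 hχ hst
  rw [h0] at h1
  have h2 := (mul_eq_zero.1 h1).resolve_left hG
  exact_mod_cast h2

theorem DSE5 (hDSZ : DSZ5_stmt) (hDHZ : DHZ2_stmt) : DSE5_stmt := by
  intro p M hS G E A _ _ _ _ _ X hop D x θ χ hRt hHyp hD a d
  have hp : Fact p.Prime := ⟨hS.pr⟩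
  obtain ⟨n, hn⟩ := (IsPGroup.iff_card (p := p) (G := D)).1 hRt.dfa.pgrp
  have h0 : ∀ d' : ℤ, d' ≠ (n : ℤ) → ∀ U : Subgroup A, altSum X p M χ d' U = 0 :=
    fun d' hd' U => hDHZ p M hS G E A X D x θ χ hRt hHyp n hn d' hd' U
  have hz : ∀ d' : ℤ, d' ≠ (n : ℤ) → ∑ᶠ U : {U : Subgroup A // a ∈ U}, altSum X p M χ d' U.1 = 0 := by
    intro d' hd'
    rw [finsum_congr (fun U : {U : Subgroup A // a ∈ U} => h0 d' hd' U.1)]
    exact finsum_zero
  by_cases hd : d = (n : ℤ)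
  · have h1 := hDSZ p M hS G E A X hop D x θ χ hRt hHyp hD a
    unfold dadeSum at h1
    rw [finsum_eq_single _ (n : ℤ) hz] at h1
    rw [hd]
    exact h1
  · exact hz d hd

/-- a subgroup between `K` and `V` generated modulo `K` by a power of `s` -/
theorem DSC5_gen {A : Type} [Group A] (K L V : Subgroup A) (s : A) (hs : ∀ a ∈ L, ∃ k : ℤ, s ^ k * a ∈ K)
    (hK : K ≤ V) (hL : V ≤ L) : ∃ b : A, Subgroup.zpowers b ⊔ K = V := by
  let H : AddSubgroup ℤ :=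
    { carrier := {k | s ^ k ∈ V}
      zero_mem' := by
        change s ^ (0 : ℤ) ∈ V
        rw [zpow_zero]
        exact V.one_mem
      add_mem' := fun {a b} ha hb => by
        change s ^ (a + b) ∈ V
        rw [zpow_add]
        exact V.mul_mem ha hb
      neg_mem' := fun {a} ha => by
        change s ^ (-a) ∈ V
        rw [zpow_neg]
        exact V.inv_mem ha }
  obtain ⟨j, hj⟩ := Int.subgroup_cyclic H
  have hjH : s ^ j ∈ V := by
    have h1 : j ∈ H := by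
      rw [hj]
      exact AddSubgroup.subset_closure rfl
    exact h1
  refine ⟨s ^ j, le_antisymm (sup_le ?_ hK) ?_⟩
  · rw [Subgroup.zpowers_le]
    exact hjH
  · intro v hv
    obtain ⟨k, hk⟩ := hs v (hL hv)
    have h1 : s ^ k ∈ V := by
      have h2 : s ^ k = s ^ k * v * v⁻¹ := by group
      rw [h2]
      exact V.mul_mem (hK hk) (V.inv_mem hv)
    have h3 : k ∈ H := h1
    rw [hj, AddSubgroup.mem_closure_singleton] at h3
    obtain ⟨m, hm⟩ := h3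
    have h4 : v = (s ^ j) ^ (-m) * (s ^ k * v) := by
      rw [← zpow_mul, ← mul_assoc, ← zpow_add, ← hm, smul_eq_mul]
      have h5 : j * -m + m * j = 0 := by ring
      rw [h5, zpow_zero, one_mul]
    rw [h4]
    exact Subgroup.mul_mem_sup (Subgroup.zpow_mem_zpowers _ _) hk

theorem DSC5 (hDSE : DSE5_stmt) (hZRO : Pool.Agent.BQ.ZRO_stmt) (hDWN : Pool.Agent.BQ.DWN_stmt) : DSC5_stmt := by
  intro p M hM G E A _ _ _ _ _ X hOp D x θ χ hRt hHyp hD s hs d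
  haveI : Fact p.Prime := ⟨hM.pr⟩
  haveI : Finite A := Finite.of_surjective X.proj X.proj_surjective
  refine hDWN A (fun U => altSum X p M χ d U) (Pool.Agent.BQ.AI X M χ) (Pool.Agent.BQ.AB X M χ) ?_ ?_
  · intro V hV
    exact (hZRO G E A X p M hM.max hM.mem χ hRt.chi d V hV).2
  · intro V hK hL
    obtain ⟨b, hb⟩ := DSC5_gen _ _ V s hs hK hL
    refine ⟨Subgroup.zpowers b, hb, ?_⟩
    have h1 := hDSE p M hM G E A X hOp D x θ χ hRt hHyp hD b d
    rw [← h1]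
    exact finsum_comp_equiv (Equiv.subtypeEquivRight fun W : Subgroup A => Subgroup.zpowers_le (g := b) (H := W))
      (f := fun U : {U : Subgroup A // b ∈ U} => altSum X p M χ d U.1)

end Pool.Agent.FI4B
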