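import Mathlib
import Pool.Agent.helper83.FI4B.Stm
import Pool.Agent.helper58.FI.SpecC
import Pool.Agent.helper12.FI.PureF

/-!
# Project fi4 (MP_baa4d7_al), block FINAL: Dade's conjecture for `B`, all defects
-/

set_option autoImplicit false

namespace Pool.Agent.FI4B

open Pool.Agent.helper58.DC Pool.Agent.DI Pool.Agent.GR Pool.Agent.OB Pool.Agent.DR Pool.Agent.FI Pool.Agent.FI3 Pool.Agent.FI4 Pool.Agent.FI4I

theorem FN4_top {G : Type} [Group G] {p : ℕ} {R : Subgroup G} {C : Finset (Subgroup G)}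
    (h : NCh p (⊤ : Subgroup G) R C) :
    ∃ Q ∈ C, IsPGroup p Q ∧ Q ≤ nrm C ∧ cz Q ≤ nrm C ∧ nrm C ≤ nz Q := by
  classical
  obtain ⟨Q, hQC, hQ⟩ := C.exists_maximal ⟨R, h.ch.mem⟩
  have hmax : ∀ P ∈ C, P ≤ Q := by
    intro P hP
    rcases h.ch.chain.total hP hQC with h1 | h1
    · exact h1
    · exact hQ hP h1
  refine ⟨Q, hQC, h.ch.pg Q hQC, ?_, ?_, ?_⟩
  · unfold nrm
    refine le_iInf fun P => le_iInf fun hP => ?_
    exact h.nm P hP Q hQC (hmax P hP)
  · unfold nrm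
    refine le_iInf fun P => le_iInf fun hP => ?_
    intro c hc
    rw [Subgroup.mem_centralizer_iff] at hc
    rw [Subgroup.mem_normalizer_iff]
    intro y
    constructor
    · intro hy
      have h1 := hc y (hmax P hP hy)
      have h2 : c * y * c⁻¹ = y := by
        rw [← h1]
        group
      rw [h2]
      exact hy
    · intro hy
      have h1 := hc _ (hmax P hP hy)
      have h2 : c * y * c⁻¹ = y := by
        have h3 : c⁻¹ * (c * y * c⁻¹ * c) * c⁻¹ = c⁻¹ * (c * (c * y * c⁻¹)) * c⁻¹ := by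
          rw [h1]
        have h4 : c⁻¹ * (c * y * c⁻¹ * c) * c⁻¹ = y * c⁻¹ := by group
        have h5 : c⁻¹ * (c * (c * y * c⁻¹)) * c⁻¹ = c * y * c⁻¹ * c⁻¹ := by group
        rw [h4, h5] at h3
        exact (mul_right_cancel h3).symm
      rw [h2] at hy
      exact hy
  · unfold nrm
    exact iInf_le_of_le Q (iInf_le _ hQC)

theorem FN2 (hFT0 : FT0_stmt) (hHN : HN2_stmt) (hKR : KRG_stmt) (hTG : TG2_stmt) (hMN : MN2_stmt) : FN2_stmt := by
  classical
  intro p M hS G _ _ D x θ χ hR hH hDn hG d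
  have : Fact p.Prime := ⟨hS.pr⟩
  obtain ⟨a, ha⟩ := IsPGroup.iff_card.1 hR.dfa.pgrp
  have h0 := hFT0 G p M hG χ hR.chi d
  have hG0 : (Nat.card G : ℤ) ≠ 0 := by exact_mod_cast Nat.card_pos.ne'
  have hdef : ∀ C : Finset (Subgroup G), NCh p (⊤ : Subgroup G) ⊥ C → ∀ φ ∈ Blk M χ (nrm C), Defect p (nrm C) φ a := by
    intro C hC φ hφ
    obtain ⟨Q, -, h1, h2, h3, h4⟩ := FN4_top hC
    exact hHN p M hS G D x θ χ hR hH Q (nrm C) h1 h2 h3 h4 φ hφ a ha
  have hz : (Nat.card G : ℤ) * altSum (trivE G) p M χ d ⊤ = 0 := by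
    rw [h0]
    by_cases hda : d = (a : ℤ)
    · have hB : ∀ C ∈ {C : Finset (Subgroup G) | NCh p (⊤ : Subgroup G) ⊥ C}, (-1 : ℤ) ^ (C.card + 1) *
          ((Nat.card (nrm C) : ℤ) * (BlkD p M χ (nrm C) d).ncard) =
          (-1 : ℤ) ^ (C.card + 1) * ((Nat.card (nrm C) : ℤ) * (Blk M χ (nrm C)).ncard) := by
        intro C hC
        have h1 : BlkD p M χ (nrm C) d = Blk M χ (nrm C) := by
          ext φ
          constructor
          · intro h
            exact h.1
          · intro h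
            refine ⟨h, ?_⟩
            rw [hda]
            exact hdef C hC φ h
        rw [h1]
      rw [finsum_mem_congr rfl hB]
      have h2 := hKR p M hS G χ hR.chi
      have h3 := hTG p M hS G D x θ χ hR hH ⊥ hG bot_le hDn.symm
        (fun G' _ _ _ D' x' θ' χ' hR' hH' => hMN p M hS G' D' x' θ' χ' hR' hH')
      rw [h3, hMN p M hS G D x θ χ hR hH, sub_self, mul_zero] at h2
      have hf : {C : Finset (Subgroup G) | NCh p (⊤ : Subgroup G) ⊥ C}.Finite := Set.toFinite _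
      have h4 : ((∑ᶠ C ∈ {C : Finset (Subgroup G) | NCh p (⊤ : Subgroup G) ⊥ C}, (-1 : ℤ) ^ (C.card + 1) *
          ((Nat.card (nrm C) : ℤ) * (Blk M χ (nrm C)).ncard) : ℤ) : ℂ) = 0 := by
        rw [← h2, finsum_mem_eq_finite_toFinset_sum _ hf, finsum_mem_eq_finite_toFinset_sum _ hf]
        push_cast
        rfl
      exact_mod_cast h4
    · refine finsum_mem_eq_zero_of_forall_eq_zero fun C hC => ?_
      have h2 : BlkD p M χ (nrm C) d = ∅ := by
        rw [Set.eq_empty_iff_forall_notMem]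
        rintro φ ⟨h3, h4⟩
        exact hda (PF_defect_unique p (nrm C) φ _ _ h4 (hdef C hC φ h3))
      rw [h2, Set.ncard_empty]
      simp
  exact (mul_eq_zero.1 hz).resolve_left hG0

end Pool.Agent.FI4B
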