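import Pool.Agent.helper59.FI4.AllM
import Pool.Agent.helper58.FI4E.AllE
import Pool.Agent.helper22.OB.FinG
import Pool.Agent.helper96.FI4B.BIA
import Pool.Agent.helper28.FI4B.BIR
import Pool.Agent.helper48.FI4B.BRI
import Pool.Agent.helper91.FI4B.BOR
import Pool.Agent.helper27.FI4B.BPS
import Pool.Agent.helper44.FI4B.BST
import Pool.Agent.helper13.FI4B.BSM
import Pool.Agent.helper75.FI4B.BPL
import Pool.Agent.helper24.FI4B.BAV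
import Pool.Agent.helper52.FI4B.BCN
import Pool.Agent.helper69.FI4B.BBD
import Pool.Agent.helper47.FI4B.BHT
import Pool.Agent.helper2.FI4B.BCV
import Pool.Agent.helper49.FI4B.BH2
import Pool.Agent.helper64.FI4B.BHN
import Pool.Agent.helper67.FI4B.BCJ
import Pool.Agent.helper83.FI4B.IHN2
import Pool.Agent.helper83.FI4B.ONB2
import Pool.Agent.helper83.FI4B.TG2
import Pool.Agent.helper83.FI4B.MN2
import Pool.Agent.helper83.FI4B.HN2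
import Pool.Agent.helper83.FI4B.AM2
import Pool.Agent.helper39.FI4B.BAP
import Pool.Agent.helper6.FI4B.BON
import Pool.Agent.helper41.FI4B.BTP
import Pool.Agent.helper27.FI4B.BTR
import Pool.Agent.helper24.FI4B.MNE2
import Pool.Agent.helper83.FI4B.IHE2
import Pool.Agent.helper83.FI4B.TGE2
import Pool.Agent.helper83.FI4B.DHZ2
import Pool.Agent.helper83.FI4B.TLO
import Pool.Agent.helper83.FI4B.DS5
import Pool.Agent.helper65.FI4.XL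
import Pool.Agent.helper83.FI4B.FN2

/-!
# Project fi4, version FI4+ (MP_baa4d7_al): assembly under the condition `Hy2` (`|I| + N + 1 < p`)

OUTPUT (no hypotheses): `bBH2 : BH2_stmt`, `bBHT : BHT_stmt`, `bBBD : BBD_stmt` (`l(B) ≤ p - 2`), `bTG2`, `bMN2 : MN2_stmt`
(`l(B) = l(B_N)`), `bHN2 : HN2_stmt` (heights), `bAM2 : AM2_stmt` (`k(B) = k(B_N)`), `bMNE5` (equivariant), `bDSZ5`,
`bDSE5 : DSE5_stmt`, `bDSC5 : DSC5_stmt` (Dade's conjecture for extensions, all `p`).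
-/

set_option autoImplicit false

namespace Pool.Agent.FI4B.AllB

open Pool.Agent Pool.Agent.FI Pool.Agent.FI3 Pool.Agent.FI4 Pool.Agent.FI4I Pool.Agent.FI4E Pool.Agent.FI4B Pool.Agent.GR Pool.Agent.helper58.DC Pool.Agent.DI Pool.Agent.OB

theorem bBIA : BIA_stmt := FI4B.BIA
theorem bBIR : BIR_stmt := FI4B.BIR bBIA
theorem bBRI : BRI_stmt := FI4B.BRI bBIR AllR.rRR1 GR.All.dGLI GR.All.dGLP (AllQ2.eQEU AllQ.qQEV) AllQ2.dQCG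
theorem bBOR : BOR_stmt := FI4B.BOR
theorem bBPS : BPS_stmt := FI4B.BPS aLA_LCG aLA_LCO bBOR
theorem bBST : BST_stmt := FI4B.BST bBPS bBRI AllQ2.dQID AllP4.pNU4 AllP4.pOR4 AllP4.pDOR4 AllP4.pGRG AllP4.pRGF
  (AllQ2.eQEU AllQ.qQEV) AllQ2.dQCG aLA_LCG Pool.Agent.OB.AllG.gZT4
theorem bBSM : BSM_stmt := FI4B.BSM
theorem bBPL : BPL_stmt := FI4B.BPL bBSM
theorem bBAV : BAV_stmt := FI4B.BAV bBPL
theorem bBCN : BCN_stmt := FI4B.BCN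
theorem bBHT : BHT_stmt := FI4B.BHT AllP4.pLOA AllP4.pGRG AllQ2.dQID (AllQ2.eQHT AllQ.qQEV) AllHT.hIAP AllHT.hNAG
  AllHT.hDPX AllHT.hGAV AllHT.tBS1 AllA.dTPR
theorem bBON : BON_stmt := FI4B.BON bBAV
theorem bBBD : BBD_stmt := FI4B.BBD bBST bBON bBCN AllP4.pLOA AllP4.pGRG AllM.mKZ4 AllM.mIR4 AllP4.pBES4 bBHT
  FI4C.AllC.cCN4 FI4C.AllC.cGMX AllK.kLLN AllA.dTPR
theorem bBCV : BCV_stmt := FI4B.BCV
theorem bBAP : BAP_stmt := FI4B.BAP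
theorem bBH2 : BH2_stmt := FI4B.BH2 bBCV bBAP AllP4.pLOA
theorem bBHN : BHN_stmt := FI4B.BHN AllI.iTRT AllI.iTR3
theorem bBCJ : BCJ_stmt := FI4B.BCJ AllI.iTTC AllB.dCON AllC.cFEQ AllA.dSYL
theorem bIHN2 : IHN2_stmt := FI4B.IHN2 AllI.iRTN bBHN bBCJ AllI.iBKV AllI.iTRL AllI.iTR3 AllC.cFSI
theorem bONB2 : ONB2_stmt := FI4B.ONB2 AllI.iBKV AllB.dCON AllA.dEXB AllC.cFEQ AllC.cFSI AllA.dCJG AllI.iRTN bBHN
  AllI.iTRL bBBD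
theorem bTG2 : TG2_stmt := FI4B.TG2 (AllI.iTOG AllK.kLBN) AllI.iLOC bIHN2 Pool.Agent.FI3F.AllF.cFMX3
theorem bMN2 : MN2_stmt := FI4B.MN2 bTG2 AllK.kDV4 AllK.kOPD bBHT bBBD bONB2
theorem bHN2 : HN2_stmt := FI4B.HN2 AllI.iBKN AllI.iBKV bBCJ AllI.iRTN bBHN AllI.iTRL bBHT AllI.iTR4
theorem bAM2 : AM2_stmt := FI4B.AM2 bMN2 bIHN2 AllI.iLOC (AllI.iKNR AllK.kKRA AllK.kLBN) AllI.iVNN AllI.iLBI bBCJ AllC.cFEQ
theorem bFN2 : FN2_stmt := FI4B.FN2 AllC.cFT0 bHN2 AllK.kKRG bTG2 bMN2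

theorem bBTP : BTP_stmt := FI4B.BTP
theorem bBTR : BTR_stmt := FI4B.BTR bBTP AllE.eRAT AllQ.qQEI GR.All.dBCL GR.All.dB2 AllE.eBAA GR.All.dIM
theorem bIHE2 : IHE2_stmt := FI4B.IHE2 AllE.eTRE AllE.eTRA AllI.iRTN bBHN bBCJ AllI.iBKV AllI.iTR3 AllC.cFSI
theorem bTGE2 : TGE2_stmt := FI4B.TGE2 AllE.eTOE AllE.eLCG bIHE2 Pool.Agent.FI3F.AllF.cFMX3 AllE.eTSI AllE.eBAA
theorem bMNE2 : MNE2_stmt := FI4B.MNE2 bTGE2 (AllE3.eDV4E AllE.eOMX AllE.eUNS) AllK.kOPD bBHT bBBD bONB2 bMN2 AllE.eBDE AllE.ePRK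
  bBTR AllE.eBAA GR.All.dBCL GR.All.dIM
theorem bXL : XL_stmt := XL AllQ.qQEI GR.All.dBCL AllA.dSTC GR.All.dB2
theorem bTLO : TLO_stmt := FI4B.TLO bXL GR.All.dB2 AllE.eBAA GR.All.dIM
theorem bMNE5 : MNE5_stmt := FI4B.MNE5 bMNE2 bTLO bBBD bMN2 AllE.eBAA
theorem bDHZ2 : DHZ2_stmt := FI4B.DHZ2 Pool.Agent.DR.AllDI.iA13 bHN2
theorem bDSZ5 : DSZ5_stmt := FI4B.DSZ5 AllE.eOMX AllE.eOMR AllE.eDFA bTGE2 bMNE5 AllE.eBAA
theorem bDSE5 : DSE5_stmt := FI4B.DSE5 bDSZ5 bDHZ2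
theorem bDSC5 : DSC5_stmt := FI4B.DSC5 bDSE5 Pool.Agent.BQ.All.qZRO Pool.Agent.BQ.DWN
/-- the name used in helper12's files -/
theorem bDSE2 : DSE5_stmt := bDSE5
/-- the name used in helper12's files -/
theorem bDSC2 : DSC5_stmt := bDSC5

end Pool.Agent.FI4B.AllB
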